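import Pool.Agent.H106R3.Zomb.Gen

/-! One-dimensional facts on the cycle (task DEL, by helper449). -/

set_option autoImplicit false

open Finset

namespace Pool.Agent.H106R3.Zomb

theorem del_intCast {n : ℕ} [NeZero n] {m : ℤ} (h : 2 * |m| < n) : (m : ZMod n).valMinAbs = m := by
  rw [ZMod.valMinAbs_spec]
  refine ⟨rfl, ?_⟩
  rw [Set.mem_Ioc]
  have h1 := neg_abs_le m
  have h2 := le_abs_self m
  constructor <;> linarith

theorem del_unit {n : ℕ} [NeZero n] (hn : 3 ≤ n) {a b : ZMod n} (h : (cyc n).Adj a b) :
    del (b - a) ≤ 1 := by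
  have h1 : (2 : ℤ) * |(1 : ℤ)| < n := by
    have : (3 : ℤ) ≤ n := by exact_mod_cast hn
    simp
    linarith
  have e1 : del (1 : ZMod n) = 1 := by
    have := del_intCast (n := n) h1
    unfold del
    rw [Int.cast_one] at this
    rw [this]
    rfl
  have e2 : del (-1 : ZMod n) = 1 := by
    unfold del at e1 ⊢
    rw [ZMod.natAbs_valMinAbs_neg]
    exact e1
  unfold cyc at h
  rw [SimpleGraph.circulantGraph_adj] at h
  rcases h with ⟨-, h | h⟩
  · have h2 : b - a = -1 := by
      have : a - b = 1 := by simpa using h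
      rw [← neg_sub, this]
    rw [h2, e2]
  · have h2 : b - a = 1 := by simpa using h
    rw [h2, e1]

theorem del_facts : TaskDel := by
  intro n _ hn
  have hn' : (3 : ℤ) ≤ n := by exact_mod_cast hn
  refine ⟨?_, ?_, ?_, ?_, ?_, ?_⟩
  · intro z
    unfold del
    rw [Int.natAbs_eq_zero, ZMod.valMinAbs_eq_zero]
  · intro a b
    exact (ZMod.natAbs_valMinAbs_add_le a b).trans (Int.natAbs_add_le _ _)
  · intro a b
    unfold del
    rw [← neg_sub, ZMod.natAbs_valMinAbs_neg]
  · intro c b hbc
    set m := (b - c).valMinAbs with hm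
    have hm0 : m ≠ 0 := by
      rw [hm, Ne, ZMod.valMinAbs_eq_zero, sub_eq_zero]
      exact hbc
    have hmem := ZMod.valMinAbs_mem_Ioc (b - c)
    rw [← hm, Set.mem_Ioc] at hmem
    have hbm : b - c = ((m : ℤ) : ZMod n) := (ZMod.coe_valMinAbs (b - c)).symm
    have h1 : tow c b - c = ((m - m.sign : ℤ) : ZMod n) := by
      unfold tow
      rw [← hm]
      push_cast
      rw [← hbm]
      ring
    have h2 : (tow c b - c).valMinAbs = m - m.sign := by
      rw [ZMod.valMinAbs_spec]
      refine ⟨h1, ?_⟩
      rw [Set.mem_Ioc]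
      rcases lt_trichotomy m 0 with h | h | h
      · rw [Int.sign_eq_neg_one_of_neg h]
        constructor <;> omega
      · exact absurd h hm0
      · rw [Int.sign_eq_one_of_pos h]
        constructor <;> omega
    unfold del
    rw [h2, ← hm]
    rcases lt_trichotomy m 0 with h | h | h
    · rw [Int.sign_eq_neg_one_of_neg h]
      omega
    · exact absurd h hm0
    · rw [Int.sign_eq_one_of_pos h]
      omega
  · intro s s' h
    simp only [nb, Finset.mem_filter, Finset.mem_univ, true_and] at h
    have h0 : del (0 : ZMod n) = 0 := by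
      unfold del
      simp
    rcases h with h | h
    · rw [h, sub_self, sub_self, h0]
      omega
    · unfold tor at h
      rw [SimpleGraph.boxProd_adj] at h
      rcases h with ⟨h1, h2⟩ | ⟨h1, h2⟩
      · rw [← h2, sub_self, h0]
        exact del_unit hn h1
      · rw [← h2, sub_self, h0, zero_add]
        exact del_unit hn h1
  · intro m hm
    exact del_intCast hm

end Pool.Agent.H106R3.Zomb
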