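import Mathlib

set_option autoImplicit false
set_option maxHeartbeats 4000000

open Finset

namespace Pool.Agent.H106R3.Zomb

variable {V : Type} [Fintype V] [DecidableEq V]

open Classical in
/-- The neighbours of `v` that lie on a shortest path from `v` to `s`. -/
noncomputable def closer (G : SimpleGraph V) (s v : V) : Finset V :=
  univ.filter fun w => G.Adj v w ∧ G.dist w s + 1 = G.dist v s

/-- Transition probability (from `v` to `w`) of a zombie when the survivor is at `s`: the zombie
chooses uniformly among the neighbours of `v` on a shortest path to `s`. -/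
noncomputable def step (G : SimpleGraph V) (s v w : V) : ℝ :=
  if w ∈ closer G s v then 1 / ((closer G s v).card : ℝ) else 0

/-- A survivor strategy gives the position of the survivor as a function of the list of all zombie
configurations so far (most recent first). It is legal if in each round the survivor moves to a
neighbour or stays. -/
def Legal (G : SimpleGraph V) {k : ℕ} (σ : List (Fin k → V) → V) : Prop :=
  ∀ (Z Z' : Fin k → V) (h : List (Fin k → V)),
    σ (Z' :: Z :: h) = σ (Z :: h) ∨ G.Adj (σ (Z :: h)) (σ (Z' :: Z :: h))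

/-- Probability that the survivor (with strategy `σ`) is not eaten during the next `m` rounds, when
the present zombie configuration is `Z` and the earlier ones are `h`. In a round all zombies move
independently, then the survivor moves; the survivor is eaten when a zombie is on his vertex. -/
noncomputable def surv (G : SimpleGraph V) {k : ℕ} (σ : List (Fin k → V) → V) :
    ℕ → (Fin k → V) → List (Fin k → V) → ℝ
  | 0, Z, h => if ∃ i, Z i = σ (Z :: h) then 0 else 1
  | m + 1, Z, h => if ∃ i, Z i = σ (Z :: h) then 0 else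
      ∑ Z' : Fin k → V, (∏ i, step G (σ (Z :: h)) (Z i) (Z' i)) *
        (if ∃ i, Z' i = σ (Z :: h) then 0 else surv G σ m Z' (Z :: h))

/-- Probability that the survivor is not eaten during the first `m` rounds (the `k` zombies start
at independent uniformly random vertices). -/
noncomputable def survProb (G : SimpleGraph V) {k : ℕ} (σ : List (Fin k → V) → V) (m : ℕ) : ℝ :=
  (∑ Z : Fin k → V, surv G σ m Z []) / (Fintype.card V : ℝ) ^ k

/-- `s_k(G)`: the supremum over all strategies of the probability of never being eaten. -/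
noncomputable def sk (G : SimpleGraph V) (k : ℕ) : ℝ :=
  ⨆ σ : {σ : List (Fin k → V) → V // Legal G σ}, ⨅ m : ℕ, survProb G σ.1 m

/-- The zombie number. -/
noncomputable def zombieNumber (G : SimpleGraph V) : ℕ := sInf {k : ℕ | sk G k ≤ 1 / 2}

/-- One zombie against a fixed trajectory of the survivor: probability of not catching him. -/
noncomputable def g (G : SimpleGraph V) : List V → V → ℝ
  | [], _ => 1
  | s :: τ, v => if v = s then 0 else ∑ w, step G s v w * (if w = s then 0 else g G τ w)

theorem step_nonneg (G : SimpleGraph V) (s v w : V) : 0 ≤ step G s v w := by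
  unfold step; split_ifs <;> positivity

theorem sum_step_le (G : SimpleGraph V) (s v : V) : ∑ w, step G s v w ≤ 1 := by
  unfold step
  rw [← Finset.sum_filter, Finset.filter_mem_eq_inter, Finset.univ_inter, Finset.sum_const,
    nsmul_eq_mul]
  by_cases h : (closer G s v).card = 0
  · simp [h]
  · have : ((closer G s v).card : ℝ) ≠ 0 := by exact_mod_cast h
    rw [mul_one_div, div_self this]

theorem sum_step_eq (G : SimpleGraph V) (s v : V) (h : (closer G s v).Nonempty) :
    ∑ w, step G s v w = 1 := by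
  unfold step
  rw [← Finset.sum_filter, Finset.filter_mem_eq_inter, Finset.univ_inter, Finset.sum_const,
    nsmul_eq_mul]
  have : ((closer G s v).card : ℝ) ≠ 0 := by exact_mod_cast (Finset.card_pos.2 h).ne'
  rw [mul_one_div, div_self this]

theorem g_nonneg (G : SimpleGraph V) (τ : List V) : ∀ v, 0 ≤ g G τ v := by
  induction τ with
  | nil => intro v; simp [g]
  | cons s τ ih =>
    intro v
    simp only [g]
    split_ifs
    · exact le_rfl
    · apply Finset.sum_nonneg
      intro w _
      apply mul_nonneg (step_nonneg _ _ _ _)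
      split_ifs
      · exact le_rfl
      · exact ih w

theorem g_le_one (G : SimpleGraph V) (τ : List V) : ∀ v, g G τ v ≤ 1 := by
  induction τ with
  | nil => intro v; simp [g]
  | cons s τ ih =>
    intro v
    simp only [g]
    split_ifs
    · exact zero_le_one
    · refine le_trans (Finset.sum_le_sum fun w _ => ?_) (sum_step_le G s v)
      have h1 : (if w = s then (0 : ℝ) else g G τ w) ≤ 1 := by
        split_ifs
        · exact zero_le_one
        · exact ih w
      calc step G s v w * (if w = s then (0 : ℝ) else g G τ w) ≤ step G s v w * 1 :=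
            mul_le_mul_of_nonneg_left h1 (step_nonneg _ _ _ _)
        _ = step G s v w := mul_one _

theorem surv_nonneg (G : SimpleGraph V) {k : ℕ} (σ : List (Fin k → V) → V) (m : ℕ) :
    ∀ Z h, 0 ≤ surv G σ m Z h := by
  induction m with
  | zero => intro Z h; simp only [surv]; split_ifs <;> norm_num
  | succ m ih =>
    intro Z h
    simp only [surv]
    split_ifs
    · exact le_rfl
    · apply Finset.sum_nonneg
      intro Z' _
      apply mul_nonneg (Finset.prod_nonneg fun i _ => step_nonneg _ _ _ _)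
      split_ifs
      · exact le_rfl
      · exact ih _ _

open Classical in
/-- closed neighbourhood -/
noncomputable def nb (G : SimpleGraph V) (s : V) : Finset V :=
  univ.filter fun w => w = s ∨ G.Adj s w

/-- trajectories of length `m` starting at `s` -/
noncomputable def Traj (G : SimpleGraph V) : ℕ → V → Finset (List V)
  | 0, _ => {[]}
  | m + 1, s => ((nb G s).biUnion fun s' => Traj G m s').image fun τ => s :: τ

theorem card_Traj (G : SimpleGraph V) (d : ℕ) (hd : ∀ s, (nb G s).card ≤ d) (m : ℕ) :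
    ∀ s, (Traj G m s).card ≤ d ^ m := by
  induction m with
  | zero => intro s; simp [Traj]
  | succ m ih =>
    intro s
    simp only [Traj]
    refine le_trans Finset.card_image_le ?_
    refine le_trans (Finset.card_biUnion_le) ?_
    calc ∑ u ∈ nb G s, (Traj G m u).card ≤ ∑ u ∈ nb G s, d ^ m := Finset.sum_le_sum fun u _ => ih u
      _ = (nb G s).card * d ^ m := by rw [Finset.sum_const, smul_eq_mul]
      _ ≤ d * d ^ m := Nat.mul_le_mul_right _ (hd s)
      _ = d ^ (m + 1) := by ring

/-- union bound over trajectories -/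
theorem surv_le (G : SimpleGraph V) {k : ℕ} (σ : List (Fin k → V) → V) (hσ : Legal G σ) (m : ℕ) :
    ∀ Z h, surv G σ m Z h ≤ ∑ τ ∈ Traj G m (σ (Z :: h)), ∏ i, g G τ (Z i) := by
  induction m with
  | zero =>
    intro Z h
    simp only [surv, Traj, Finset.sum_singleton, g, Finset.prod_const_one]
    split_ifs <;> norm_num
  | succ m ih =>
    intro Z h
    have hnn : ∀ (T : Finset (List V)) (W : Fin k → V), 0 ≤ ∑ τ ∈ T, ∏ i, g G τ (W i) :=
      fun T W => Finset.sum_nonneg fun τ _ => Finset.prod_nonneg fun i _ => g_nonneg G τ _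
    by_cases hc : ∃ i, Z i = σ (Z :: h)
    · simp only [surv, if_pos hc]
      exact hnn _ _
    simp only [surv, if_neg hc]
    set s := σ (Z :: h) with hs
    set T' := (nb G s).biUnion fun s' => Traj G m s' with hT'
    have hinj : Function.Injective (fun τ : List V => s :: τ) := fun a b hab => by
      simpa using hab
    have hR : ∑ τ ∈ Traj G (m + 1) s, ∏ i, g G τ (Z i) =
        ∑ τ ∈ T', ∏ i, g G (s :: τ) (Z i) := by
      simp only [Traj]
      rw [Finset.sum_image (fun a _ b _ hab => hinj hab)]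
    rw [hR]
    have hstep : ∀ Z' : Fin k → V, (∏ i, step G s (Z i) (Z' i)) *
        (if ∃ i, Z' i = s then 0 else surv G σ m Z' (Z :: h)) ≤
        ∑ τ ∈ T', ∏ i, (step G s (Z i) (Z' i) * (if Z' i = s then 0 else g G τ (Z' i))) := by
      intro Z'
      have hp : 0 ≤ ∏ i, step G s (Z i) (Z' i) := Finset.prod_nonneg fun i _ => step_nonneg _ _ _ _
      by_cases hc' : ∃ i, Z' i = s
      · rw [if_pos hc', mul_zero]
        apply Finset.sum_nonneg
        intro τ _
        apply Finset.prod_nonneg
        intro i _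
        apply mul_nonneg (step_nonneg _ _ _ _)
        split_ifs
        · exact le_rfl
        · exact g_nonneg G τ _
      · rw [if_neg hc']
        push Not at hc'
        have e1 : ∀ τ, ∏ i, (step G s (Z i) (Z' i) * (if Z' i = s then 0 else g G τ (Z' i))) =
            (∏ i, step G s (Z i) (Z' i)) * ∏ i, g G τ (Z' i) := by
          intro τ
          rw [← Finset.prod_mul_distrib]
          apply Finset.prod_congr rfl
          intro i _
          rw [if_neg (hc' i)]
        simp only [e1]
        rw [← Finset.mul_sum]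
        apply mul_le_mul_of_nonneg_left _ hp
        refine le_trans (ih Z' (Z :: h)) ?_
        apply Finset.sum_le_sum_of_subset_of_nonneg
        · intro τ hτ
          rw [hT', Finset.mem_biUnion]
          refine ⟨σ (Z' :: Z :: h), ?_, hτ⟩
          simp only [nb, Finset.mem_filter, Finset.mem_univ, true_and]
          exact hσ Z Z' h
        · intro τ _ _
          exact Finset.prod_nonneg fun i _ => g_nonneg G τ _
    refine le_trans (Finset.sum_le_sum fun Z' _ => hstep Z') ?_
    rw [Finset.sum_comm]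
    apply Finset.sum_le_sum
    intro τ _
    have hZ : ∀ i, Z i ≠ s := fun i hi => hc ⟨i, hi⟩
    have e2 : ∏ i, g G (s :: τ) (Z i) =
        ∏ i, ∑ w, step G s (Z i) w * (if w = s then 0 else g G τ w) := by
      apply Finset.prod_congr rfl
      intro i _
      simp only [g]
      rw [if_neg (hZ i)]
    rw [e2, Finset.prod_univ_sum, Fintype.piFinset_univ]

theorem survProb_le (G : SimpleGraph V) {k : ℕ} (σ : List (Fin k → V) → V) (hσ : Legal G σ)
    (m : ℕ) : survProb G σ m ≤ ∑ s, ∑ τ ∈ Traj G m s, ((∑ v, g G τ v) / Fintype.card V) ^ k := by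
  unfold survProb
  have h1 : ∑ Z : Fin k → V, surv G σ m Z [] ≤
      ∑ Z : Fin k → V, ∑ s, ∑ τ ∈ Traj G m s, ∏ i, g G τ (Z i) := by
    apply Finset.sum_le_sum
    intro Z _
    refine le_trans (surv_le G σ hσ m Z []) ?_
    exact Finset.single_le_sum (f := fun s => ∑ τ ∈ Traj G m s, ∏ i, g G τ (Z i))
      (fun s _ => Finset.sum_nonneg fun τ _ => Finset.prod_nonneg fun i _ => g_nonneg G τ _)
      (Finset.mem_univ (σ [Z]))
  have h2 : ∑ Z : Fin k → V, ∑ s, ∑ τ ∈ Traj G m s, ∏ i, g G τ (Z i) =
      ∑ s, ∑ τ ∈ Traj G m s, (∑ v, g G τ v) ^ k := by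
    rw [Finset.sum_comm]
    apply Finset.sum_congr rfl
    intro s _
    rw [Finset.sum_comm]
    apply Finset.sum_congr rfl
    intro τ _
    rw [Fintype.sum_pow]
  calc (∑ Z : Fin k → V, surv G σ m Z []) / (Fintype.card V : ℝ) ^ k
      ≤ (∑ s, ∑ τ ∈ Traj G m s, (∑ v, g G τ v) ^ k) / (Fintype.card V : ℝ) ^ k := by
        rw [← h2]; gcongr
    _ = _ := by
        rw [Finset.sum_div]
        apply Finset.sum_congr rfl
        intro s _
        rw [Finset.sum_div]
        apply Finset.sum_congr rfl
        intro τ _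
        rw [div_pow]

/-! ### The torus -/

/-- the cycle `C_n` -/
def cyc (n : ℕ) : SimpleGraph (ZMod n) := SimpleGraph.circulantGraph {(1 : ZMod n)}

/-- the toroidal grid `C_n □ C_n` -/
def tor (n : ℕ) : SimpleGraph (ZMod n × ZMod n) := cyc n □ cyc n

/-- distance to `0` on the cycle -/
def del {n : ℕ} (z : ZMod n) : ℕ := z.valMinAbs.natAbs

/-- the neighbour of `b` towards `c` (`b` itself if `b = c`) -/
def tow {n : ℕ} (c b : ZMod n) : ZMod n := b - ((b - c).valMinAbs.sign : ZMod n)

/-- expected number of rounds in which the one-dimensional walker is aligned with the survivor -/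
noncomputable def U {n : ℕ} : List (ZMod n) → ZMod n → ℝ
  | [], _ => 0
  | c :: γ, b => (if b = c then 1 else 0) + (U γ b + U γ (tow c b)) / 2

/-- heat evolution of `|z|` -/
noncomputable def q : ℕ → ℤ → ℝ
  | 0, z => |(z : ℝ)|
  | r + 1, z => q r (z + 1) / 4 + q r z / 2 + q r (z - 1) / 4

/-- the point at integer offset `(x, y)` from `s` -/
def pt {n : ℕ} (s : ZMod n × ZMod n) (x y : ℤ) : ZMod n × ZMod n := (s.1 + (x : ZMod n), s.2 + (y : ZMod n))

/-- geometry of the torus -/
def TaskGeo : Prop := ∀ (n : ℕ) [NeZero n], 3 ≤ n →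
  (tor n).Connected ∧
  (∀ s v : ZMod n × ZMod n, v ≠ s → (closer (tor n) s v).Nonempty) ∧
  (∀ s : ZMod n × ZMod n, (nb (tor n) s).card ≤ 5) ∧
  (∀ s v : ZMod n × ZMod n, (tor n).dist v s = del (v.1 - s.1) + del (v.2 - s.2)) ∧
  (∀ (s : ZMod n × ZMod n) (x y : ℤ), 2 * (|x| + |y|) + 2 ≤ n → x ≠ 0 →
    (1 / 2 : ℝ) ≤ step (tor n) s (pt s x y) (pt s (x - x.sign) y)) ∧
  (∀ (s : ZMod n × ZMod n) (x y : ℤ), 2 * (|x| + |y|) + 2 ≤ n → y ≠ 0 →
    (1 / 2 : ℝ) ≤ step (tor n) s (pt s x y) (pt s x (y - y.sign))) ∧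
  (∀ (s : ZMod n × ZMod n) (x : ℤ), 2 * |x| + 2 ≤ n → x ≠ 0 →
    (1 : ℝ) ≤ step (tor n) s (pt s x 0) (pt s (x - x.sign) 0)) ∧
  (∀ (s : ZMod n × ZMod n) (y : ℤ), 2 * |y| + 2 ≤ n → y ≠ 0 →
    (1 : ℝ) ≤ step (tor n) s (pt s 0 y) (pt s 0 (y - y.sign)))

/-- one-dimensional facts -/
def TaskDel : Prop := ∀ (n : ℕ) [NeZero n], 3 ≤ n →
  (∀ z : ZMod n, del z = 0 ↔ z = 0) ∧ (∀ a b : ZMod n, del (a + b) ≤ del a + del b) ∧
  (∀ a b : ZMod n, del (a - b) = del (b - a)) ∧
  (∀ c b : ZMod n, b ≠ c → del (tow c b - c) + 1 = del (b - c)) ∧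
  (∀ s s' : ZMod n × ZMod n, s' ∈ nb (tor n) s → del (s'.1 - s.1) + del (s'.2 - s.2) ≤ 1) ∧
  (∀ m : ℤ, 2 * |m| < n → (m : ZMod n).valMinAbs = m)

/-- potential lemma -/
def TaskPot : Prop := TaskDel → ∀ (n : ℕ) [NeZero n], 3 ≤ n → ∀ (r : ℕ) (s : ZMod n × ZMod n)
  (τ : List (ZMod n × ZMod n)), τ ∈ Traj (tor n) r s → ∀ a b : ZMod n,
  q r (del (a - s.1) + del (b - s.2) : ℕ) - (del (a - s.1) + del (b - s.2) : ℕ) ≤
    U (τ.map Prod.fst) a + U (τ.map Prod.snd) b

/-- lower bound for the heat evolution -/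
def TaskQ : Prop := (∀ r z, |q r (z + 1) - q r z| ≤ 1) ∧ ∀ r : ℕ, 3 / 8 * Real.sqrt r ≤ q r 0

/-- final numerical inequality -/
def TaskNum : Prop := ∀ n : ℕ, 3 ≤ n → ∃ m : ℕ, 1 ≤ m ∧ (2 ≤ m → 4 * m ≤ n) ∧
  ∀ (A : ℝ), 1 / 5 * (m : ℝ) * Real.sqrt m ≤ A → A ≤ (n : ℝ) ^ 2 → ∀ k : ℕ,
    128 * (n : ℝ) * Real.sqrt n ≤ k →
    (n : ℝ) ^ 2 * (5 : ℝ) ^ m * (1 - A / (n : ℝ) ^ 2) ^ k ≤ 1 / 2

end Pool.Agent.H106R3.Zomb
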