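import Pool.Agent.H106R3.Zomb.Gen

set_option autoImplicit false
set_option maxHeartbeats 4000000

open Finset

namespace Pool.Agent.H106R3.Zomb.GeoH

open Pool.Agent.H106R3.Zomb

/-- a potential with the right local behaviour is the distance -/
theorem dist_of_pot {V : Type} (G : SimpleGraph V) (s : V) (D : V → ℕ) (h0 : D s = 0)
    (h1 : ∀ u v, G.Adj u v → D u ≤ D v + 1)
    (h2 : ∀ v, v ≠ s → ∃ w, G.Adj v w ∧ D v = D w + 1) (v : V) :
    G.Reachable v s ∧ G.dist v s = D v := by
  have hw : ∀ (d : ℕ) (v : V), D v = d → ∃ p : G.Walk v s, p.length = d := by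
    intro d
    induction d with
    | zero =>
      intro v hv
      by_cases hvs : v = s
      · subst hvs
        exact ⟨SimpleGraph.Walk.nil, rfl⟩
      · obtain ⟨w, _, h⟩ := h2 v hvs
        omega
    | succ d ih =>
      intro v hv
      have hvs : v ≠ s := by
        rintro rfl
        omega
      obtain ⟨w, hadj, h⟩ := h2 v hvs
      obtain ⟨p, hp⟩ := ih w (by omega)
      exact ⟨SimpleGraph.Walk.cons hadj p, by rw [SimpleGraph.Walk.length_cons, hp]⟩
  have hle : ∀ (u : V) (p : G.Walk u s), D u ≤ p.length := by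
    intro u p
    have key : ∀ (a b : V) (p : G.Walk a b), D a ≤ D b + p.length := by
      intro a b p
      induction p with
      | nil => simp
      | cons h p ih =>
        have := h1 _ _ h
        rw [SimpleGraph.Walk.length_cons]
        omega
    have := key u s p
    omega
  obtain ⟨p, hp⟩ := hw (D v) v rfl
  refine ⟨⟨p⟩, le_antisymm ?_ ?_⟩
  · rw [← hp]
    exact SimpleGraph.dist_le p
  · obtain ⟨q, hq⟩ := SimpleGraph.Reachable.exists_walk_length_eq_dist (⟨p⟩ : G.Reachable v s)
    rw [← hq]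
    exact hle v q

theorem cyc_adj {n : ℕ} (hn : 3 ≤ n) (a b : ZMod n) :
    (cyc n).Adj a b ↔ (b = a + 1 ∨ b = a - 1) := by
  have : Fact (1 < n) := ⟨by omega⟩
  have h1 : (1 : ZMod n) ≠ 0 := one_ne_zero
  unfold cyc
  rw [SimpleGraph.circulantGraph_adj]
  simp only [Set.mem_singleton_iff]
  constructor
  · rintro ⟨_, h | h⟩
    · right
      rw [← h]
      ring
    · left
      rw [← h]
      ring
  · rintro (h | h)
    · subst h
      refine ⟨?_, Or.inr (by ring)⟩
      intro h
      apply h1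
      have : a + 0 = a + 1 := by rw [add_zero]; exact h
      exact (add_left_cancel this).symm
    · subst h
      refine ⟨?_, Or.inl (by ring)⟩
      intro h
      apply h1
      have h3 : a + 1 = a + 0 := by
        rw [add_zero]
        nth_rw 1 [h]
        ring
      exact add_left_cancel h3

theorem tor_adj {n : ℕ} (hn : 3 ≤ n) (u v : ZMod n × ZMod n) :
    (tor n).Adj u v ↔ (v = (u.1 + 1, u.2) ∨ v = (u.1 - 1, u.2) ∨ v = (u.1, u.2 + 1) ∨
      v = (u.1, u.2 - 1)) := by
  unfold tor
  rw [SimpleGraph.boxProd_adj, cyc_adj hn, cyc_adj hn]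
  obtain ⟨u1, u2⟩ := u
  obtain ⟨v1, v2⟩ := v
  simp only [Prod.mk.injEq]
  constructor
  · rintro (⟨h | h, h2⟩ | ⟨h | h, h2⟩)
    · exact Or.inl ⟨h, h2.symm⟩
    · exact Or.inr (Or.inl ⟨h, h2.symm⟩)
    · exact Or.inr (Or.inr (Or.inl ⟨h2.symm, h⟩))
    · exact Or.inr (Or.inr (Or.inr ⟨h2.symm, h⟩))
  · rintro (⟨h, h2⟩ | ⟨h, h2⟩ | ⟨h2, h⟩ | ⟨h2, h⟩)
    · exact Or.inl ⟨Or.inl h, h2.symm⟩
    · exact Or.inl ⟨Or.inr h, h2.symm⟩
    · exact Or.inr ⟨Or.inl h, h2.symm⟩
    · exact Or.inr ⟨Or.inr h, h2.symm⟩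

theorem del_zero {n : ℕ} : del (0 : ZMod n) = 0 := by
  unfold del
  rw [ZMod.valMinAbs_zero]
  rfl

theorem del_cast {n : ℕ} [NeZero n] (m : ℤ) (hm : 2 * |m| ≤ n) :
    del ((m : ℤ) : ZMod n) = m.natAbs := by
  unfold del
  by_cases h : m * 2 = -(n : ℤ)
  · have h1 : ((m : ℤ) : ZMod n).valMinAbs = -m := by
      rw [ZMod.valMinAbs_spec]
      constructor
      · have h2 : (m : ℤ) - (-m) = -(n : ℤ) := by omega
        have h3 : (((m : ℤ) - (-m) : ℤ) : ZMod n) = ((-(n : ℤ) : ℤ) : ZMod n) := by rw [h2]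
        rw [Int.cast_sub, Int.cast_neg (n : ℤ), Int.cast_natCast, ZMod.natCast_self, neg_zero]
          at h3
        exact sub_eq_zero.mp h3
      · constructor
        · have : (0 : ℤ) < n := by exact_mod_cast Nat.pos_of_ne_zero (NeZero.ne n)
          omega
        · omega
    rw [h1, Int.natAbs_neg]
  · have h1 : ((m : ℤ) : ZMod n).valMinAbs = m := by
      rw [ZMod.valMinAbs_spec]
      refine ⟨rfl, ?_, ?_⟩
      · have := neg_abs_le m
        omega
      · have := le_abs_self m
        omega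
    rw [h1]

theorem del_add {n : ℕ} [NeZero n] (a b : ZMod n) : del (a + b) ≤ del a + del b := by
  have h := ZMod.natAbs_valMinAbs_add_le a b
  have h2 := Int.natAbs_add_le a.valMinAbs b.valMinAbs
  unfold del
  omega

theorem del_one {n : ℕ} [NeZero n] (hn : 3 ≤ n) : del (1 : ZMod n) = 1 := by
  have := del_cast (n := n) 1 (by simp; omega)
  simpa using this

theorem del_neg_one {n : ℕ} [NeZero n] (hn : 3 ≤ n) : del (-1 : ZMod n) = 1 := by
  have := del_cast (n := n) (-1) (by simp; omega)
  simpa using this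

theorem del_add_one {n : ℕ} [NeZero n] (hn : 3 ≤ n) (z : ZMod n) : del (z + 1) ≤ del z + 1 := by
  have := del_add z 1
  rw [del_one hn] at this
  exact this

theorem del_sub_one {n : ℕ} [NeZero n] (hn : 3 ≤ n) (z : ZMod n) : del (z - 1) ≤ del z + 1 := by
  have := del_add z (-1)
  rw [del_neg_one hn] at this
  rw [sub_eq_add_neg]
  exact this

theorem del_step {n : ℕ} [NeZero n] (z : ZMod n) (hz : z ≠ 0) :
    del z = del (z - 1) + 1 ∨ del z = del (z + 1) + 1 := by
  have hm := ZMod.valMinAbs_mem_Ioc z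
  set m := z.valMinAbs with hmdef
  have hzm : ((m : ℤ) : ZMod n) = z := by
    rw [hmdef]
    exact ZMod.coe_valMinAbs z
  have hm0 : m ≠ 0 := by
    rw [hmdef, Ne, ZMod.valMinAbs_eq_zero]
    exact hz
  have hdz : del z = m.natAbs := rfl
  have hm1 := hm.1
  have hm2 := hm.2
  rcases lt_or_gt_of_ne hm0 with h | h
  · right
    have h1 : del (z + 1) = (m + 1).natAbs := by
      rw [← hzm]
      have h2 : ((m : ℤ) : ZMod n) + 1 = ((m + 1 : ℤ) : ZMod n) := by push_cast; ring
      rw [h2]
      apply del_cast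
      rcases abs_cases (m + 1) with ⟨h3, _⟩ | ⟨h3, _⟩ <;> rw [h3] <;> omega
    rw [h1, hdz]
    omega
  · left
    have h1 : del (z - 1) = (m - 1).natAbs := by
      rw [← hzm]
      have h2 : ((m : ℤ) : ZMod n) - 1 = ((m - 1 : ℤ) : ZMod n) := by push_cast; ring
      rw [h2]
      apply del_cast
      rcases abs_cases (m - 1) with ⟨h3, _⟩ | ⟨h3, _⟩ <;> rw [h3] <;> omega
    rw [h1, hdz]
    omega

/-- the potential -/
def Dp {n : ℕ} (s v : ZMod n × ZMod n) : ℕ := del (v.1 - s.1) + del (v.2 - s.2)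

theorem tor_dist {n : ℕ} [NeZero n] (hn : 3 ≤ n) (s v : ZMod n × ZMod n) :
    (tor n).Reachable v s ∧ (tor n).dist v s = Dp s v := by
  refine dist_of_pot (tor n) s (Dp s) ?_ ?_ ?_ v
  · simp [Dp, del_zero]
  · intro u v h
    rw [SimpleGraph.adj_comm, tor_adj hn] at h
    unfold Dp
    rcases h with h | h | h | h
    · subst h
      have h1 := del_add_one hn (v.1 - s.1)
      have h2 : v.1 + 1 - s.1 = v.1 - s.1 + 1 := by ring
      simp only [h2]
      omega
    · subst h
      have h1 := del_sub_one hn (v.1 - s.1)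
      have h2 : v.1 - 1 - s.1 = v.1 - s.1 - 1 := by ring
      simp only [h2]
      omega
    · subst h
      have h1 := del_add_one hn (v.2 - s.2)
      have h2 : v.2 + 1 - s.2 = v.2 - s.2 + 1 := by ring
      simp only [h2]
      omega
    · subst h
      have h1 := del_sub_one hn (v.2 - s.2)
      have h2 : v.2 - 1 - s.2 = v.2 - s.2 - 1 := by ring
      simp only [h2]
      omega
  · intro v hv
    by_cases h1 : v.1 - s.1 = 0
    · have h2 : v.2 - s.2 ≠ 0 := by
        intro h2
        apply hv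
        ext
        · exact sub_eq_zero.mp h1
        · exact sub_eq_zero.mp h2
      rcases del_step _ h2 with h | h
      · refine ⟨(v.1, v.2 - 1), (tor_adj hn _ _).mpr (Or.inr (Or.inr (Or.inr rfl))), ?_⟩
        have h3 : v.2 - 1 - s.2 = v.2 - s.2 - 1 := by ring
        simp only [Dp, h3]
        omega
      · refine ⟨(v.1, v.2 + 1), (tor_adj hn _ _).mpr (Or.inr (Or.inr (Or.inl rfl))), ?_⟩
        have h3 : v.2 + 1 - s.2 = v.2 - s.2 + 1 := by ring
        simp only [Dp, h3]
        omega
    · rcases del_step _ h1 with h | h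
      · refine ⟨(v.1 - 1, v.2), (tor_adj hn _ _).mpr (Or.inr (Or.inl rfl)), ?_⟩
        have h3 : v.1 - 1 - s.1 = v.1 - s.1 - 1 := by ring
        simp only [Dp, h3]
        omega
      · refine ⟨(v.1 + 1, v.2), (tor_adj hn _ _).mpr (Or.inl rfl), ?_⟩
        have h3 : v.1 + 1 - s.1 = v.1 - s.1 + 1 := by ring
        simp only [Dp, h3]
        omega

theorem mem_closer {V : Type} [Fintype V] [DecidableEq V] (G : SimpleGraph V) (s v w : V) :
    w ∈ closer G s v ↔ G.Adj v w ∧ G.dist w s + 1 = G.dist v s := by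
  classical
  unfold closer
  simp only [Finset.mem_filter, Finset.mem_univ, true_and]

theorem mem_nb {V : Type} [Fintype V] [DecidableEq V] (G : SimpleGraph V) (s w : V) :
    w ∈ nb G s ↔ (w = s ∨ G.Adj s w) := by
  classical
  unfold nb
  simp only [Finset.mem_filter, Finset.mem_univ, true_and]

theorem closer_nonempty {n : ℕ} [NeZero n] (hn : 3 ≤ n) (s v : ZMod n × ZMod n) (hv : v ≠ s) :
    (closer (tor n) s v).Nonempty := by
  have hr := (tor_dist hn s v).1
  obtain ⟨p, hp⟩ := hr.exists_walk_length_eq_dist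
  cases p with
  | nil => exact absurd rfl hv
  | cons h q =>
    rename_i w
    refine ⟨w, ?_⟩
    rw [mem_closer]
    refine ⟨h, ?_⟩
    rw [SimpleGraph.Walk.length_cons] at hp
    have h1 : (tor n).dist w s ≤ q.length := SimpleGraph.dist_le q
    have h2 : (tor n).dist v s ≤ (tor n).dist w s + 1 := by
      rw [(tor_dist hn s v).2, (tor_dist hn s w).2]
      obtain ⟨q', hq'⟩ := (tor_dist hn s w).1.exists_walk_length_eq_dist
      have h3 : (tor n).dist v s ≤ (SimpleGraph.Walk.cons h q').length := SimpleGraph.dist_le _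
      rw [SimpleGraph.Walk.length_cons, hq', (tor_dist hn s v).2, (tor_dist hn s w).2] at h3
      exact h3
    omega

theorem nb_card {n : ℕ} [NeZero n] (hn : 3 ≤ n) (s : ZMod n × ZMod n) :
    (nb (tor n) s).card ≤ 5 := by
  have hsub : nb (tor n) s ⊆ {s, (s.1 + 1, s.2), (s.1 - 1, s.2), (s.1, s.2 + 1), (s.1, s.2 - 1)} := by
    intro w hw
    rw [mem_nb, tor_adj hn] at hw
    simp only [Finset.mem_insert, Finset.mem_singleton]
    exact hw
  exact (Finset.card_le_card hsub).trans Finset.card_le_five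

theorem Dp_pt {n : ℕ} [NeZero n] (s : ZMod n × ZMod n) (x y : ℤ) (hx : 2 * |x| ≤ n)
    (hy : 2 * |y| ≤ n) : Dp s (pt s x y) = x.natAbs + y.natAbs := by
  unfold Dp pt
  simp only [add_sub_cancel_left]
  rw [del_cast x hx, del_cast y hy]

theorem abs_add_one_le (x : ℤ) : |x + 1| ≤ |x| + 1 := by
  have := abs_add_le x 1
  simpa using this

theorem abs_sub_one_le (x : ℤ) : |x - 1| ≤ |x| + 1 := by
  have := abs_add_le x (-1)
  rw [← sub_eq_add_neg] at this
  simpa using this

/-- description of the closer neighbours -/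
theorem closer_pt {n : ℕ} [NeZero n] (hn : 3 ≤ n) (s : ZMod n × ZMod n) (x y : ℤ)
    (hxy : 2 * (|x| + |y|) + 2 ≤ n) (w : ZMod n × ZMod n) :
    w ∈ closer (tor n) s (pt s x y) ↔
      (x ≠ 0 ∧ w = pt s (x - x.sign) y) ∨ (y ≠ 0 ∧ w = pt s x (y - y.sign)) := by
  have hax := abs_nonneg x
  have hay := abs_nonneg y
  have hx : 2 * |x| ≤ n := by omega
  have hy : 2 * |y| ≤ n := by omega
  have hxp : 2 * |x + 1| ≤ n := by have := abs_add_one_le x; omega
  have hxm : 2 * |x - 1| ≤ n := by have := abs_sub_one_le x; omega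
  have hyp : 2 * |y + 1| ≤ n := by have := abs_add_one_le y; omega
  have hym : 2 * |y - 1| ≤ n := by have := abs_sub_one_le y; omega
  have e1 : (((pt s x y).1 + 1, (pt s x y).2) : ZMod n × ZMod n) = pt s (x + 1) y := by
    unfold pt
    ext
    · push_cast; ring
    · rfl
  have e2 : (((pt s x y).1 - 1, (pt s x y).2) : ZMod n × ZMod n) = pt s (x - 1) y := by
    unfold pt
    ext
    · push_cast; ring
    · rfl
  have e3 : (((pt s x y).1, (pt s x y).2 + 1) : ZMod n × ZMod n) = pt s x (y + 1) := by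
    unfold pt
    ext
    · rfl
    · push_cast; ring
  have e4 : (((pt s x y).1, (pt s x y).2 - 1) : ZMod n × ZMod n) = pt s x (y - 1) := by
    unfold pt
    ext
    · rfl
    · push_cast; ring
  have d0 := Dp_pt s x y hx hy
  have d1 := Dp_pt s (x + 1) y hxp hy
  have d2 := Dp_pt s (x - 1) y hxm hy
  have d3 := Dp_pt s x (y + 1) hx hyp
  have d4 := Dp_pt s x (y - 1) hx hym
  rw [mem_closer, tor_adj hn, e1, e2, e3, e4, (tor_dist hn s w).2,
    (tor_dist hn s (pt s x y)).2, d0]
  constructor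
  · rintro ⟨h | h | h | h, h5⟩
    · rw [h, d1] at h5
      have hs : x < 0 := by omega
      left
      refine ⟨hs.ne, ?_⟩
      rw [Int.sign_eq_neg_one_of_neg hs, h]
      congr 1
    · rw [h, d2] at h5
      have hs : 0 < x := by omega
      left
      refine ⟨hs.ne', ?_⟩
      rw [Int.sign_eq_one_of_pos hs, h]
    · rw [h, d3] at h5
      have hs : y < 0 := by omega
      right
      refine ⟨hs.ne, ?_⟩
      rw [Int.sign_eq_neg_one_of_neg hs, h]
      congr 1
    · rw [h, d4] at h5
      have hs : 0 < y := by omega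
      right
      refine ⟨hs.ne', ?_⟩
      rw [Int.sign_eq_one_of_pos hs, h]
  · rintro (⟨h0, h⟩ | ⟨h0, h⟩)
    · rcases lt_or_gt_of_ne h0 with hs | hs
      · rw [Int.sign_eq_neg_one_of_neg hs, sub_neg_eq_add] at h
        refine ⟨Or.inl h, ?_⟩
        rw [h, d1]
        omega
      · rw [Int.sign_eq_one_of_pos hs] at h
        refine ⟨Or.inr (Or.inl h), ?_⟩
        rw [h, d2]
        omega
    · rcases lt_or_gt_of_ne h0 with hs | hs
      · rw [Int.sign_eq_neg_one_of_neg hs, sub_neg_eq_add] at h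
        refine ⟨Or.inr (Or.inr (Or.inl h)), ?_⟩
        rw [h, d3]
        omega
      · rw [Int.sign_eq_one_of_pos hs] at h
        refine ⟨Or.inr (Or.inr (Or.inr h)), ?_⟩
        rw [h, d4]
        omega

theorem step_ge {n : ℕ} [NeZero n] (s v w : ZMod n × ZMod n) (c : ℕ)
    (hc : (closer (tor n) s v).card ≤ c) (hw : w ∈ closer (tor n) s v) :
    (1 : ℝ) / c ≤ step (tor n) s v w := by
  unfold step
  rw [if_pos hw]
  have hpos : 0 < (closer (tor n) s v).card := Finset.card_pos.mpr ⟨w, hw⟩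
  apply one_div_le_one_div_of_le
  · exact_mod_cast hpos
  · exact_mod_cast hc

theorem card_closer_le_two {n : ℕ} [NeZero n] (hn : 3 ≤ n) (s : ZMod n × ZMod n) (x y : ℤ)
    (hxy : 2 * (|x| + |y|) + 2 ≤ n) : (closer (tor n) s (pt s x y)).card ≤ 2 := by
  have hsub : closer (tor n) s (pt s x y) ⊆ {pt s (x - x.sign) y, pt s x (y - y.sign)} := by
    intro w hw
    rw [closer_pt hn s x y hxy] at hw
    simp only [Finset.mem_insert, Finset.mem_singleton]
    rcases hw with h | h
    · exact Or.inl h.2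
    · exact Or.inr h.2
  exact (Finset.card_le_card hsub).trans Finset.card_le_two

theorem geo : TaskGeo := by
  intro n _ hn
  refine ⟨?_, closer_nonempty hn, nb_card hn, fun s v => (tor_dist hn s v).2, ?_, ?_, ?_, ?_⟩
  · have : Nonempty (ZMod n × ZMod n) := ⟨(0, 0)⟩
    refine SimpleGraph.Connected.mk ?_
    intro u v
    exact (tor_dist hn v u).1
  · intro s x y hxy hx
    have := step_ge s (pt s x y) (pt s (x - x.sign) y) 2 (card_closer_le_two hn s x y hxy)
      ((closer_pt hn s x y hxy _).mpr (Or.inl ⟨hx, rfl⟩))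
    exact_mod_cast this
  · intro s x y hxy hy
    have := step_ge s (pt s x y) (pt s x (y - y.sign)) 2 (card_closer_le_two hn s x y hxy)
      ((closer_pt hn s x y hxy _).mpr (Or.inr ⟨hy, rfl⟩))
    exact_mod_cast this
  · intro s x hx hx0
    have hxy : 2 * (|x| + |(0 : ℤ)|) + 2 ≤ n := by simpa using hx
    have hcard : (closer (tor n) s (pt s x 0)).card ≤ 1 := by
      have hsub : closer (tor n) s (pt s x 0) ⊆ {pt s (x - x.sign) 0} := by
        intro w hw
        rw [closer_pt hn s x 0 hxy] at hw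
        simp only [Finset.mem_singleton]
        rcases hw with h | h
        · exact h.2
        · exact absurd rfl h.1
      exact (Finset.card_le_card hsub).trans (Finset.card_singleton _).le
    have := step_ge s (pt s x 0) (pt s (x - x.sign) 0) 1 hcard
      ((closer_pt hn s x 0 hxy _).mpr (Or.inl ⟨hx0, rfl⟩))
    simpa using this
  · intro s y hy hy0
    have hxy : 2 * (|(0 : ℤ)| + |y|) + 2 ≤ n := by simpa using hy
    have hcard : (closer (tor n) s (pt s 0 y)).card ≤ 1 := by
      have hsub : closer (tor n) s (pt s 0 y) ⊆ {pt s 0 (y - y.sign)} := by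
        intro w hw
        rw [closer_pt hn s 0 y hxy] at hw
        simp only [Finset.mem_singleton]
        rcases hw with h | h
        · exact absurd rfl h.1
        · exact h.2
      exact (Finset.card_le_card hsub).trans (Finset.card_singleton _).le
    have := step_ge s (pt s 0 y) (pt s 0 (y - y.sign)) 1 hcard
      ((closer_pt hn s 0 y hxy _).mpr (Or.inr ⟨hy0, rfl⟩))
    simpa using this

end Pool.Agent.H106R3.Zomb.GeoH

namespace Pool.Agent.H106R3.Zomb

theorem geo : TaskGeo := GeoH.geo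

end Pool.Agent.H106R3.Zomb
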