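import Pool.Agent.H106R3.Zomb.Row
import Pool.Agent.H106R3.Zomb.Geo
import Pool.Agent.H106R3.Zomb.Del

set_option autoImplicit false
set_option maxHeartbeats 4000000

open Finset

namespace Pool.Agent.H106R3.Zomb

theorem out_sign (x : ℤ) : ∃ e : ℤ, |x + e| ≤ |x| + 1 ∧ x + e ≠ 0 ∧ (x + e) - (x + e).sign = x := by
  by_cases h : 0 ≤ x
  · refine ⟨1, ?_, by omega, ?_⟩
    · rw [abs_of_nonneg h, abs_of_nonneg (by omega : (0 : ℤ) ≤ x + 1)]
    · rw [Int.sign_eq_one_of_pos (by omega)]; ring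
  · refine ⟨-1, ?_, by omega, ?_⟩
    · rw [abs_of_neg (by omega : x < 0), abs_of_neg (by omega : x + -1 < 0)]; omega
    · rw [Int.sign_eq_neg_one_of_neg (by omega)]; ring

section
variable {n : ℕ} [NeZero n]

theorem pt_self (s w : ZMod n × ZMod n) :
    pt s (w.1 - s.1).valMinAbs (w.2 - s.2).valMinAbs = w := by
  unfold pt
  rw [ZMod.coe_valMinAbs, ZMod.coe_valMinAbs]
  ext <;> simp

theorem abs_val (z : ZMod n) : |z.valMinAbs| = (del z : ℤ) := by
  unfold del
  rw [Int.natCast_natAbs]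

theorem step_nbr (hn : 3 ≤ n) (s v : ZMod n × ZMod n) (h : (tor n).Adj v s) :
    step (tor n) s v s = 1 := by
  have hc := (geo n hn).1
  have h1 : (tor n).dist v s = 1 := SimpleGraph.dist_eq_one_iff_adj.2 h
  have h2 : closer (tor n) s v = {s} := by
    ext w
    simp only [closer, Finset.mem_filter, Finset.mem_univ, true_and, Finset.mem_singleton]
    constructor
    · rintro ⟨_, hw⟩
      rw [h1] at hw
      have : (tor n).dist w s = 0 := by omega
      exact hc.dist_eq_zero_iff.1 this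
    · rintro rfl
      exact ⟨h, by rw [h1, SimpleGraph.dist_self]⟩
  unfold step
  rw [h2]
  simp

/-- generic: a single vertex gives a lower bound for the inflow -/
theorem inflow_ge {V : Type} [Fintype V] [DecidableEq V] (G : SimpleGraph V) (s w v : V)
    (P : V → Prop) [DecidablePred P] (hv : P v) (c : ℝ) (h : c ≤ step G s v w) :
    c ≤ ∑ u with P u, step G s u w := by
  refine h.trans ?_
  exact Finset.single_le_sum (f := fun u => step G s u w) (fun u _ => step_nonneg _ _ _ _)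
    (Finset.mem_filter.2 ⟨Finset.mem_univ _, hv⟩)

theorem one_ne_neg_one (hn : 3 ≤ n) : (1 : ZMod n) ≠ -1 := by
  intro h
  have h1 : ((2 : ℕ) : ZMod n) = 0 := by
    push_cast
    linear_combination h
  rw [ZMod.natCast_eq_zero_iff] at h1
  have := Nat.le_of_dvd (by norm_num) h1
  omega

theorem one_ne_zero' (hn : 3 ≤ n) : (1 : ZMod n) ≠ 0 := by
  intro h
  have h1 : ((1 : ℕ) : ZMod n) = 0 := by
    push_cast
    exact h
  rw [ZMod.natCast_eq_zero_iff] at h1
  have := Nat.le_of_dvd (by norm_num) h1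
  omega

variable (hn : 3 ≤ n) (m : ℕ) (hm : 2 ≤ m → 4 * m ≤ n)
include hn hm

theorem near_bd (s w : ZMod n × ZMod n) (h2 : 2 ≤ m) (hd : (tor n).dist w s ≤ 2 * (m - 1)) :
    2 * (|(w.1 - s.1).valMinAbs| + |(w.2 - s.2).valMinAbs| + 1) + 2 ≤ (n : ℤ) := by
  rw [abs_val, abs_val]
  rw [(geo n hn).2.2.2.1 s w] at hd
  have := hm h2
  omega

theorem snd_b (s w : ZMod n × ZMod n) (b : ZMod n) (h2 : 2 ≤ m)
    (hd : (tor n).dist w s ≤ 2 * (m - 1)) (hb : b ≠ s.2) (hw : w.2 = b) :
    (1 / 2 : ℝ) ≤ ∑ v with v.2 = b, step (tor n) s v w := by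
  have hnear := near_bd hn m hm s w h2 hd
  obtain ⟨e, he1, he2, he3⟩ := out_sign (w.1 - s.1).valMinAbs
  set x := (w.1 - s.1).valMinAbs
  set y := (w.2 - s.2).valMinAbs
  have h := (geo n hn).2.2.2.2.1 s (x + e) y (by omega) he2
  rw [he3, pt_self s w] at h
  apply inflow_ge (tor n) s w (pt s (x + e) y) _ _ _ h
  rw [← hw]
  show (pt s x y).2 = w.2
  exact congrArg Prod.snd (pt_self s w)

theorem fst_b (s w : ZMod n × ZMod n) (b : ZMod n) (h2 : 2 ≤ m)
    (hd : (tor n).dist w s ≤ 2 * (m - 1)) (hb : b ≠ s.1) (hw : w.1 = b) :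
    (1 / 2 : ℝ) ≤ ∑ v with v.1 = b, step (tor n) s v w := by
  have hnear := near_bd hn m hm s w h2 hd
  obtain ⟨e, he1, he2, he3⟩ := out_sign (w.2 - s.2).valMinAbs
  set x := (w.1 - s.1).valMinAbs
  set y := (w.2 - s.2).valMinAbs
  have h := (geo n hn).2.2.2.2.2.1 s x (y + e) (by omega) he2
  rw [he3, pt_self s w] at h
  apply inflow_ge (tor n) s w (pt s x (y + e)) _ _ _ h
  rw [← hw]
  show (pt s x y).1 = w.1
  exact congrArg Prod.fst (pt_self s w)

theorem snd_t (s w : ZMod n × ZMod n) (b : ZMod n) (h2 : 2 ≤ m)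
    (hd : (tor n).dist w s ≤ 2 * (m - 1)) (hb : b ≠ s.2) (hw : w.2 = tow s.2 b) :
    (1 / 2 : ℝ) ≤ ∑ v with v.2 = b, step (tor n) s v w := by
  have hnear := near_bd hn m hm s w h2 hd
  have ht := (del_facts n hn).2.2.2.1 s.2 b hb
  rw [← hw] at ht
  set x := (w.1 - s.1).valMinAbs with hx
  set y := (w.2 - s.2).valMinAbs with hy
  set z := (b - s.2).valMinAbs with hz
  have hz1 : |z| = |y| + 1 := by
    rw [hz, hy, abs_val, abs_val]
    exact_mod_cast ht.symm
  have hz0 : z ≠ 0 := by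
    intro h0
    rw [h0, abs_zero] at hz1
    have := abs_nonneg y
    omega
  have h := (geo n hn).2.2.2.2.2.1 s x z (by omega) hz0
  have hpt : pt s x (z - z.sign) = w := by
    unfold pt
    ext
    · simp [hx]
    · simp only [Int.cast_sub, hz, ZMod.coe_valMinAbs]
      rw [hw]
      unfold tow
      ring
  rw [hpt] at h
  apply inflow_ge (tor n) s w (pt s x z) _ _ _ h
  simp [pt, hz]

theorem fst_t (s w : ZMod n × ZMod n) (b : ZMod n) (h2 : 2 ≤ m)
    (hd : (tor n).dist w s ≤ 2 * (m - 1)) (hb : b ≠ s.1) (hw : w.1 = tow s.1 b) :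
    (1 / 2 : ℝ) ≤ ∑ v with v.1 = b, step (tor n) s v w := by
  have hnear := near_bd hn m hm s w h2 hd
  have ht := (del_facts n hn).2.2.2.1 s.1 b hb
  rw [← hw] at ht
  set x := (w.1 - s.1).valMinAbs with hx
  set y := (w.2 - s.2).valMinAbs with hy
  set z := (b - s.1).valMinAbs with hz
  have hz1 : |z| = |x| + 1 := by
    rw [hz, hx, abs_val, abs_val]
    exact_mod_cast ht.symm
  have hz0 : z ≠ 0 := by
    intro h0
    rw [h0, abs_zero] at hz1
    have := abs_nonneg x
    omega
  have h := (geo n hn).2.2.2.2.1 s z y (by omega) hz0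
  have hpt : pt s (z - z.sign) y = w := by
    unfold pt
    ext
    · simp only [Int.cast_sub, hz, ZMod.coe_valMinAbs]
      rw [hw]
      unfold tow
      ring
    · simp [hy]
  rw [hpt] at h
  apply inflow_ge (tor n) s w (pt s z y) _ _ _ h
  simp [pt, hz]

theorem snd_0 (s w : ZMod n × ZMod n) (h2 : 2 ≤ m)
    (hd : (tor n).dist w s ≤ 2 * (m - 1)) (hw : w.2 = s.2) (hws : w ≠ s) :
    (1 : ℝ) ≤ ∑ v with v.2 = s.2, step (tor n) s v w := by
  have hnear := near_bd hn m hm s w h2 hd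
  obtain ⟨e, he1, he2, he3⟩ := out_sign (w.1 - s.1).valMinAbs
  have hp := pt_self s w
  have hy0 : (w.2 - s.2).valMinAbs = 0 := by rw [hw, sub_self, ZMod.valMinAbs_zero]
  rw [hy0] at hnear hp
  set x := (w.1 - s.1).valMinAbs
  rw [abs_zero] at hnear
  have h := (geo n hn).2.2.2.2.2.2.1 s (x + e) (by omega) he2
  rw [he3, hp] at h
  apply inflow_ge (tor n) s w (pt s (x + e) 0) _ _ _ h
  simp [pt]

theorem fst_0 (s w : ZMod n × ZMod n) (h2 : 2 ≤ m)
    (hd : (tor n).dist w s ≤ 2 * (m - 1)) (hw : w.1 = s.1) (hws : w ≠ s) :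
    (1 : ℝ) ≤ ∑ v with v.1 = s.1, step (tor n) s v w := by
  have hnear := near_bd hn m hm s w h2 hd
  obtain ⟨e, he1, he2, he3⟩ := out_sign (w.2 - s.2).valMinAbs
  have hp := pt_self s w
  have hx0 : (w.1 - s.1).valMinAbs = 0 := by rw [hw, sub_self, ZMod.valMinAbs_zero]
  rw [hx0] at hnear hp
  set y := (w.2 - s.2).valMinAbs
  rw [abs_zero] at hnear
  have h := (geo n hn).2.2.2.2.2.2.2 s (y + e) (by omega) he2
  rw [he3, hp] at h
  apply inflow_ge (tor n) s w (pt s 0 (y + e)) _ _ _ h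
  simp [pt]

omit hm in
theorem snd_s (s : ZMod n × ZMod n) :
    (2 : ℝ) ≤ ∑ v with v.2 = s.2, step (tor n) s v s := by
  have h1 : (tor n).Adj (s.1 + 1, s.2) s := by
    rw [tor, SimpleGraph.boxProd_adj]
    left
    refine ⟨?_, rfl⟩
    rw [cyc, SimpleGraph.circulantGraph_adj]
    refine ⟨by simpa using one_ne_zero' hn, Or.inl (by simp)⟩
  have h2 : (tor n).Adj (s.1 - 1, s.2) s := by
    rw [tor, SimpleGraph.boxProd_adj]
    left
    refine ⟨?_, rfl⟩
    rw [cyc, SimpleGraph.circulantGraph_adj]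
    refine ⟨by simpa using one_ne_zero' hn, Or.inr (by simp)⟩
  have hne : ((s.1 + 1, s.2) : ZMod n × ZMod n) ≠ (s.1 - 1, s.2) := by
    intro h
    have h3 := congrArg Prod.fst h
    simp only at h3
    apply one_ne_neg_one hn
    linear_combination h3
  have hsub : ({(s.1 + 1, s.2), (s.1 - 1, s.2)} : Finset (ZMod n × ZMod n)) ⊆
      univ.filter fun v => v.2 = s.2 := by
    intro v hv
    simp only [Finset.mem_insert, Finset.mem_singleton] at hv
    rcases hv with rfl | rfl <;> simp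
  have := Finset.sum_le_sum_of_subset_of_nonneg hsub
    (f := fun v => step (tor n) s v s) fun v _ _ => step_nonneg _ _ _ _
  rw [Finset.sum_pair hne, step_nbr hn s _ h1, step_nbr hn s _ h2] at this
  linarith

omit hm in
theorem fst_s (s : ZMod n × ZMod n) :
    (2 : ℝ) ≤ ∑ v with v.1 = s.1, step (tor n) s v s := by
  have h1 : (tor n).Adj (s.1, s.2 + 1) s := by
    rw [tor, SimpleGraph.boxProd_adj]
    right
    refine ⟨?_, rfl⟩
    rw [cyc, SimpleGraph.circulantGraph_adj]
    refine ⟨by simpa using one_ne_zero' hn, Or.inl (by simp)⟩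
  have h2 : (tor n).Adj (s.1, s.2 - 1) s := by
    rw [tor, SimpleGraph.boxProd_adj]
    right
    refine ⟨?_, rfl⟩
    rw [cyc, SimpleGraph.circulantGraph_adj]
    refine ⟨by simpa using one_ne_zero' hn, Or.inr (by simp)⟩
  have hne : ((s.1, s.2 + 1) : ZMod n × ZMod n) ≠ (s.1, s.2 - 1) := by
    intro h
    have h3 := congrArg Prod.snd h
    simp only at h3
    apply one_ne_neg_one hn
    linear_combination h3
  have hsub : ({(s.1, s.2 + 1), (s.1, s.2 - 1)} : Finset (ZMod n × ZMod n)) ⊆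
      univ.filter fun v => v.1 = s.1 := by
    intro v hv
    simp only [Finset.mem_insert, Finset.mem_singleton] at hv
    rcases hv with rfl | rfl <;> simp
  have := Finset.sum_le_sum_of_subset_of_nonneg hsub
    (f := fun v => step (tor n) s v s) fun v _ _ => step_nonneg _ _ _ _
  rw [Finset.sum_pair hne, step_nbr hn s _ h1, step_nbr hn s _ h2] at this
  linarith

omit hm in
theorem tow_ne (c b : ZMod n) (h : b ≠ c) : tow c b ≠ b := by
  intro h1
  have := (del_facts n hn).2.2.2.1 c b h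
  rw [h1] at this
  omega

omit hm in
/-- the outer neighbour in one dimension -/
theorem outer (c d : ZMod n) (hd : 2 * (del (d - c) + 1) < n) :
    ∃ b, b ≠ c ∧ b ≠ d ∧ tow c b = d := by
  obtain ⟨e, he1, he2, he3⟩ := out_sign (d - c).valMinAbs
  set z := (d - c).valMinAbs with hz
  have hz1 : |z| = (del (d - c) : ℤ) := abs_val _
  have hv : ((z + e : ℤ) : ZMod n).valMinAbs = z + e :=
    (del_facts n hn).2.2.2.2.2 (z + e) (by omega)
  have hbc : (c + ((z + e : ℤ) : ZMod n)) - c = ((z + e : ℤ) : ZMod n) := by ring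
  have ht : tow c (c + ((z + e : ℤ) : ZMod n)) = d := by
    unfold tow
    rw [hbc, hv]
    have : c + ((z + e : ℤ) : ZMod n) - (((z + e).sign : ℤ) : ZMod n) =
        c + (((z + e) - (z + e).sign : ℤ) : ZMod n) := by push_cast; ring
    rw [this, he3, hz, ZMod.coe_valMinAbs]
    ring
  have hne : c + ((z + e : ℤ) : ZMod n) ≠ c := by
    intro h
    have h1 : ((z + e : ℤ) : ZMod n) = 0 := by linear_combination h
    rw [h1, ZMod.valMinAbs_zero] at hv
    exact he2 hv.symm
  refine ⟨c + ((z + e : ℤ) : ZMod n), hne, ?_, ht⟩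
  intro h
  have := tow_ne hn c (c + ((z + e : ℤ) : ZMod n)) hne
  rw [ht] at this
  exact this h.symm

omit hm in
theorem outer_two (c : ZMod n) : tow c (c + 1) = c ∧ tow c (c - 1) = c ∧ c + 1 ≠ c ∧ c - 1 ≠ c ∧
    c + 1 ≠ c - 1 := by
  have h1 : ((1 : ℤ) : ZMod n).valMinAbs = 1 :=
    (del_facts n hn).2.2.2.2.2 1 (by simp; omega)
  have h2 : ((-1 : ℤ) : ZMod n).valMinAbs = -1 :=
    (del_facts n hn).2.2.2.2.2 (-1) (by simp; omega)
  push_cast at h1 h2
  refine ⟨?_, ?_, ?_, ?_, ?_⟩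
  · unfold tow
    have : c + 1 - c = 1 := by ring
    rw [this, h1]
    simp
  · unfold tow
    have : c - 1 - c = -1 := by ring
    rw [this, h2]
    simp
  · simpa using one_ne_zero' hn
  · simpa using one_ne_zero' hn
  · intro h
    apply one_ne_neg_one hn
    linear_combination h

end

/-- total inflow off the coordinate line -/
theorem total_off {n : ℕ} {V : Type} [Fintype V] [DecidableEq V] (G : SimpleGraph V)
    (π : V → ZMod n) (s w : V) (b' : ZMod n) (hb' : b' ≠ π w)
    (h1 : (1 / 2 : ℝ) ≤ ∑ v with π v = π w, step G s v w)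
    (h2 : (1 / 2 : ℝ) ≤ ∑ v with π v = b', step G s v w) : 1 ≤ ∑ v, step G s v w := by
  have hdisj : Disjoint (univ.filter fun v : V => π v = π w) (univ.filter fun v : V => π v = b') := by
    rw [Finset.disjoint_filter]
    intro v _ h1 h2
    exact hb' (h2.symm.trans h1)
  have h3 := Finset.sum_le_sum_of_subset_of_nonneg
    (Finset.subset_univ ((univ.filter fun v : V => π v = π w) ∪ (univ.filter fun v : V => π v = b')))
    (f := fun v => step G s v w) fun v _ _ => step_nonneg _ _ _ _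
  rw [Finset.sum_union hdisj] at h3
  linarith

/-- total inflow on the coordinate line -/
theorem total_on {n : ℕ} {V : Type} [Fintype V] [DecidableEq V] (G : SimpleGraph V)
    (π : V → ZMod n) (s w : V) (b0 b1 b2 : ZMod n) (h01 : b0 ≠ b1) (h02 : b0 ≠ b2) (h12 : b1 ≠ b2)
    (h0 : (1 : ℝ) ≤ ∑ v with π v = b0, step G s v w)
    (h1 : (1 / 2 : ℝ) ≤ ∑ v with π v = b1, step G s v w)
    (h2 : (1 / 2 : ℝ) ≤ ∑ v with π v = b2, step G s v w) : 2 ≤ ∑ v, step G s v w := by
  have hd1 : Disjoint (univ.filter fun v : V => π v = b1) (univ.filter fun v : V => π v = b2) := by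
    rw [Finset.disjoint_filter]
    intro v _ h1 h2
    exact h12 (h1.symm.trans h2)
  have hd0 : Disjoint (univ.filter fun v : V => π v = b0)
      ((univ.filter fun v : V => π v = b1) ∪ (univ.filter fun v : V => π v = b2)) := by
    rw [Finset.disjoint_union_right]
    constructor
    · rw [Finset.disjoint_filter]
      intro v _ h1 h2
      exact h01 (h1.symm.trans h2)
    · rw [Finset.disjoint_filter]
      intro v _ h1 h2
      exact h02 (h1.symm.trans h2)
  have h3 := Finset.sum_le_sum_of_subset_of_nonneg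
    (Finset.subset_univ ((univ.filter fun v : V => π v = b0) ∪
      ((univ.filter fun v : V => π v = b1) ∪ (univ.filter fun v : V => π v = b2))))
    (f := fun v => step G s v w) fun v _ _ => step_nonneg _ _ _ _
  rw [Finset.sum_union hd0, Finset.sum_union hd1] at h3
  linarith

end Pool.Agent.H106R3.Zomb
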