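import Mathlib
import Pool.Agent.H106R3.Zomb.Gen

set_option autoImplicit false

/-! The numerical estimate. -/

namespace Pool.Agent.H106R3.Zomb

theorem num_sq (m : ℕ) (hm : 1 ≤ m) : (8 * (m : ℝ) + 2) ^ 2 ≤ 25 * 4 ^ m := by
  induction m, hm using Nat.le_induction with
  | base => norm_num
  | succ m hm ih =>
    have h1 : (1 : ℝ) ≤ m := by exact_mod_cast hm
    have h2 : (4 : ℝ) ^ (m + 1) = 4 * 4 ^ m := by ring
    rw [h2]
    push_cast
    nlinarith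

theorem num_exp : 5 * Real.exp (-8) ≤ 1 / 500 := by
  have h1 : (2500 : ℝ) ≤ Real.exp 8 := by
    have h2 := Real.exp_one_gt_d9
    have h3 : Real.exp 8 = Real.exp 1 ^ 8 := by
      rw [Real.exp_one_pow]
      norm_num
    rw [h3]
    calc (2500 : ℝ) ≤ 2.7182818283 ^ 8 := by norm_num
      _ ≤ Real.exp 1 ^ 8 := pow_le_pow_left₀ (by norm_num) h2.le 8
  rw [Real.exp_neg]
  have h4 : (Real.exp 8)⁻¹ ≤ (2500 : ℝ)⁻¹ := inv_anti₀ (by norm_num) h1
  linarith

theorem num : TaskNum := by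
  intro n hn
  obtain ⟨m, hm⟩ : ∃ m, m = 1 + (n - 3) / 8 := ⟨_, rfl⟩
  have hm1 : 1 ≤ m := by omega
  have hnm : n ≤ 8 * m + 2 := by omega
  refine ⟨m, hm1, by omega, fun A hA1 hA2 k hk => ?_⟩
  have hnr : (3 : ℝ) ≤ n := by exact_mod_cast hn
  have hmr : (1 : ℝ) ≤ m := by exact_mod_cast hm1
  have hnmr : (n : ℝ) ≤ 8 * m + 2 := by exact_mod_cast hnm
  have hs2 : Real.sqrt m * Real.sqrt m = m := Real.mul_self_sqrt (by positivity)
  have ht2 : Real.sqrt n * Real.sqrt n = n := Real.mul_self_sqrt (by positivity)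
  have hs0 : 0 < Real.sqrt m := Real.sqrt_pos.mpr (by positivity)
  have ht0 : 0 < Real.sqrt n := Real.sqrt_pos.mpr (by positivity)
  generalize Real.sqrt m = s at *
  generalize Real.sqrt n = t at *
  have hts : t ≤ 16 / 5 * s := by
    by_contra hcon
    push Not at hcon
    nlinarith
  have hn2 : (0 : ℝ) < (n : ℝ) ^ 2 := by positivity
  have hA0 : 0 ≤ A := le_trans (by positivity) hA1
  have hkA : 8 * (m : ℝ) * (n : ℝ) ^ 2 ≤ k * A := by
    calc 8 * (m : ℝ) * (n : ℝ) ^ 2 = 8 * m * n * (t * t) := by rw [ht2]; ring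
      _ ≤ 8 * m * n * (t * (16 / 5 * s)) := by gcongr
      _ = (128 * n * t) * (1 / 5 * m * s) := by ring
      _ ≤ k * A := by gcongr
  have hx1 : A / (n : ℝ) ^ 2 ≤ 1 := by rw [div_le_one hn2]; exact hA2
  have h1 : (1 - A / (n : ℝ) ^ 2) ^ k ≤ Real.exp (-8) ^ m := by
    calc (1 - A / (n : ℝ) ^ 2) ^ k ≤ Real.exp (-(A / (n : ℝ) ^ 2)) ^ k :=
          pow_le_pow_left₀ (by linarith) (Real.one_sub_le_exp_neg _) k
      _ = Real.exp (k * (-(A / (n : ℝ) ^ 2))) := (Real.exp_nat_mul _ _).symm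
      _ ≤ Real.exp (m * (-8)) := by
          apply Real.exp_le_exp.mpr
          have h2 : 8 * (m : ℝ) ≤ k * (A / (n : ℝ) ^ 2) := by
            rw [← mul_div_assoc, le_div_iff₀ hn2]
            exact hkA
          linarith
      _ = Real.exp (-8) ^ m := Real.exp_nat_mul _ _
  have h3 : (n : ℝ) ^ 2 ≤ 25 * 4 ^ m := by
    refine le_trans ?_ (num_sq m hm1)
    gcongr
  have h4 : ((1 : ℝ) / 125) ^ m ≤ 1 / 125 := by
    calc ((1 : ℝ) / 125) ^ m ≤ (1 / 125) ^ 1 :=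
          pow_le_pow_of_le_one (by norm_num) (by norm_num) hm1
      _ = 1 / 125 := pow_one _
  calc (n : ℝ) ^ 2 * (5 : ℝ) ^ m * (1 - A / (n : ℝ) ^ 2) ^ k
      ≤ (n : ℝ) ^ 2 * (5 : ℝ) ^ m * Real.exp (-8) ^ m := by gcongr
    _ = (n : ℝ) ^ 2 * (5 * Real.exp (-8)) ^ m := by rw [mul_pow]; ring
    _ ≤ (25 * 4 ^ m) * (1 / 500) ^ m := by
        have := num_exp
        gcongr
    _ = 25 * (1 / 125) ^ m := by
        rw [mul_assoc, ← mul_pow]
        norm_num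
    _ ≤ 1 / 2 := by linarith

end Pool.Agent.H106R3.Zomb
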