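import Pool.Agent.H106R3.Zomb.Gen

set_option autoImplicit false

/-! Task Q of project H106-ZOMB. -/

namespace Pool.Agent.H106R3.Zomb

lemma q_lip (r : ℕ) : ∀ z : ℤ, |q r (z + 1) - q r z| ≤ 1 := by
  induction r with
  | zero =>
    intro z
    show |(|((z + 1 : ℤ) : ℝ)| - |(z : ℝ)|)| ≤ 1
    refine (abs_abs_sub_abs_le _ _).trans ?_
    push_cast
    rw [add_sub_cancel_left, abs_one]
  | succ r ih =>
    intro z
    show |(q r (z + 1 + 1) / 4 + q r (z + 1) / 2 + q r (z + 1 - 1) / 4) -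
      (q r (z + 1) / 4 + q r z / 2 + q r (z - 1) / 4)| ≤ 1
    have h1 := abs_le.1 (ih (z + 1))
    have h2 := abs_le.1 (ih z)
    have h3 := abs_le.1 (ih (z - 1))
    rw [sub_add_cancel] at h3
    rw [add_sub_cancel_right, abs_le]
    constructor <;> linarith [h1.1, h1.2, h2.1, h2.2, h3.1, h3.2]

lemma abs_lower (a : ℝ) (ha : 0 < a) (z : ℝ) :
    3 / 2 * z ^ 2 / a - 1 / 2 * z ^ 4 / a ^ 3 ≤ |z| := by
  set x := |z| with hx
  have hx0 : 0 ≤ x := abs_nonneg z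
  have h2 : z ^ 2 = x ^ 2 := (sq_abs z).symm
  have h4 : z ^ 4 = x ^ 4 := by
    rw [show z ^ 4 = (z ^ 2) ^ 2 by ring, h2]; ring
  rw [h2, h4]
  have key : x - (3 / 2 * x ^ 2 / a - 1 / 2 * x ^ 4 / a ^ 3) =
      x * ((x - a) ^ 2 * (x + 2 * a)) / (2 * a ^ 3) := by
    field_simp
    ring
  have : 0 ≤ x * ((x - a) ^ 2 * (x + 2 * a)) / (2 * a ^ 3) := by positivity
  linarith

lemma q_lower (a : ℝ) (ha : 0 < a) (r : ℕ) : ∀ z : ℤ,
    3 / 2 * ((z : ℝ) ^ 2 + r / 2) / a -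
      1 / 2 * ((z : ℝ) ^ 4 + 3 * r * (z : ℝ) ^ 2 + 3 / 4 * (r : ℝ) ^ 2 - r / 4) / a ^ 3 ≤ q r z := by
  induction r with
  | zero =>
    intro z
    have h := abs_lower a ha z
    show _ ≤ |(z : ℝ)|
    refine le_trans (le_of_eq ?_) h
    push_cast
    ring
  | succ r ih =>
    intro z
    show _ ≤ q r (z + 1) / 4 + q r z / 2 + q r (z - 1) / 4
    have h1 := ih (z + 1)
    have h2 := ih z
    have h3 := ih (z - 1)
    push_cast at h1 h3 ⊢
    refine le_trans (le_of_eq ?_) (add_le_add (add_le_add (div_le_div_of_nonneg_right h1 (by norm_num : (0:ℝ) ≤ 4))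
      (div_le_div_of_nonneg_right h2 (by norm_num : (0:ℝ) ≤ 2)))
      (div_le_div_of_nonneg_right h3 (by norm_num : (0:ℝ) ≤ 4)))
    ring

theorem q_facts : TaskQ := by
  refine ⟨q_lip, fun r => ?_⟩
  rcases Nat.eq_zero_or_pos r with rfl | hr
  · show 3 / 8 * √((0 : ℕ) : ℝ) ≤ |((0 : ℤ) : ℝ)|
    simp
  · have hr' : (0 : ℝ) < r := by exact_mod_cast hr
    have ha : 0 < √(r : ℝ) := Real.sqrt_pos.2 hr'
    have h := q_lower (√(r : ℝ)) ha r 0
    refine le_trans ?_ h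
    set a := √(r : ℝ) with had
    have har : (r : ℝ) = a ^ 2 := (Real.sq_sqrt hr'.le).symm
    rw [har]
    have h1 : 3 / 2 * (((0 : ℤ) : ℝ) ^ 2 + a ^ 2 / 2) / a -
      1 / 2 * (((0 : ℤ) : ℝ) ^ 4 + 3 * a ^ 2 * ((0 : ℤ) : ℝ) ^ 2 + 3 / 4 * (a ^ 2) ^ 2 - a ^ 2 / 4) / a ^ 3 =
      3 / 8 * a + 1 / (8 * a) := by
      push_cast
      field_simp
      ring
    rw [h1]
    have : 0 < 1 / (8 * a) := by positivity
    linarith

end Pool.Agent.H106R3.Zomb
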