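import Pool.Agent.H106R3.Zomb.Inflow
import Pool.Agent.H106R3.Zomb.Q
import Pool.Agent.H106R3.Zomb.Num

set_option autoImplicit false
set_option maxHeartbeats 4000000

open Finset

namespace Pool.Agent.H106R3.Zomb

section
variable {n : ℕ} [NeZero n] (hn : 3 ≤ n) (m : ℕ) (hm : 2 ≤ m → 4 * m ≤ n)
include hn hm

/-- the total inflow -/
theorem total_inflow (s w : ZMod n × ZMod n) (h2 : 2 ≤ m)
    (hd : (tor n).dist w s ≤ 2 * (m - 1)) (hws : w ≠ s) :
    (1 : ℝ) + (if w.2 = s.2 then 1 else 0) + (if w.1 = s.1 then 1 else 0) ≤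
      ∑ v, step (tor n) s v w := by
  by_cases hy : w.2 = s.2
  · have hx : w.1 ≠ s.1 := fun hx => hws (Prod.ext hx hy)
    rw [if_pos hy, if_neg hx]
    obtain ⟨t1, t2, n1, n2, n3⟩ := outer_two hn s.2
    have := total_on (tor n) Prod.snd s w s.2 (s.2 + 1) (s.2 - 1) n1.symm n2.symm n3
      (snd_0 hn m hm s w h2 hd hy hws)
      (snd_t hn m hm s w (s.2 + 1) h2 hd n1 (by rw [t1]; exact hy))
      (snd_t hn m hm s w (s.2 - 1) h2 hd n2 (by rw [t2]; exact hy))
    linarith
  · rw [if_neg hy]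
    by_cases hx : w.1 = s.1
    · rw [if_pos hx]
      obtain ⟨t1, t2, n1, n2, n3⟩ := outer_two hn s.1
      have := total_on (tor n) Prod.fst s w s.1 (s.1 + 1) (s.1 - 1) n1.symm n2.symm n3
        (fst_0 hn m hm s w h2 hd hx hws)
        (fst_t hn m hm s w (s.1 + 1) h2 hd n1 (by rw [t1]; exact hx))
        (fst_t hn m hm s w (s.1 - 1) h2 hd n2 (by rw [t2]; exact hx))
      linarith
    · rw [if_neg hx]
      have hnear : 2 * (del (w.2 - s.2) + 1) < n := by
        have h := near_bd hn m hm s w h2 hd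
        rw [abs_val, abs_val] at h
        omega
      obtain ⟨b', hb1, hb2, hb3⟩ := outer hn s.2 w.2 hnear
      have := total_off (tor n) Prod.snd s w b' hb2
        (snd_b hn m hm s w w.2 h2 hd hy rfl)
        (snd_t hn m hm s w b' h2 hd hb1 hb3.symm)
      linarith

omit hm in
theorem total_inflow_self (s : ZMod n × ZMod n) : (4 : ℝ) ≤ ∑ v, step (tor n) s v s := by
  have h1 := snd_s hn s
  have h2 := fst_s hn s
  have h3 : ∑ v with v.2 = s.2, step (tor n) s v s + ∑ v with v.1 = s.1, step (tor n) s v s =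
      ∑ v, ((if v.2 = s.2 then step (tor n) s v s else 0) +
        (if v.1 = s.1 then step (tor n) s v s else 0)) := by
    rw [Finset.sum_add_distrib, Finset.sum_filter, Finset.sum_filter]
  have h4 : ∑ v, ((if v.2 = s.2 then step (tor n) s v s else 0) +
        (if v.1 = s.1 then step (tor n) s v s else 0)) ≤ ∑ v, step (tor n) s v s := by
    apply Finset.sum_le_sum
    intro v _
    by_cases hy : v.2 = s.2
    · by_cases hx : v.1 = s.1
      · have : v = s := Prod.ext hx hy
        subst this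
        simp [step_self]
      · rw [if_pos hy, if_neg hx, add_zero]
    · rw [if_neg hy, zero_add]
      split_ifs
      · exact le_rfl
      · exact step_nonneg _ _ _ _
  linarith

/-- the growth of the expected number of catching start vertices -/
theorem growth (r : ℕ) (hr : r + 1 ≤ m) (s s' : ZMod n × ZMod n) (hs' : s' ∈ nb (tor n) s)
    (τ : List (ZMod n × ZMod n)) (hτ : τ ∈ Traj (tor n) r s') :
    ∑ v, f (tor n) τ v + 4 ≤ ∑ v, f (tor n) (s :: τ) v ∧
    ∑ v, f (tor n) τ v + Real.sqrt r / 2 ≤ ∑ v, f (tor n) (s :: τ) v := by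
  obtain ⟨hc, hne, hcard, hdist, -⟩ := geo n hn
  have hDel := del_facts n hn
  set G := tor n with hG
  have hnear : ∀ w, f G τ w ≠ 0 → 2 ≤ m ∧ G.dist w s ≤ 2 * (m - 1) := by
    intro w hw
    have := f_near G hc hne r s s' hs' τ hτ w hw
    omega
  set φ : ZMod n × ZMod n → ℝ := fun w => if w = s then 1 else f G τ w with hφ
  have hφ0 : ∀ w, 0 ≤ φ w := by
    intro w
    simp only [hφ]
    split_ifs
    · exact zero_le_one
    · exact f_nonneg G _ _
  set I : ZMod n × ZMod n → ℝ := fun w => ∑ v, step G s v w with hI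
  have hI0 : ∀ w, 0 ≤ I w := fun w => Finset.sum_nonneg fun v _ => step_nonneg _ _ _ _
  have hsum : ∑ v, f G (s :: τ) v = 1 + ∑ w, I w * φ w := by
    have e1 : ∑ v, f G (s :: τ) v =
        ∑ v, ((if v = s then (1 : ℝ) else 0) + ∑ w, step G s v w * φ w) := by
      apply Finset.sum_congr rfl
      intro v _
      rw [f_cons G hne]
    rw [e1, Finset.sum_add_distrib]
    congr 1
    · simp
    · rw [Finset.sum_comm]
      apply Finset.sum_congr rfl
      intro w _
      simp only [hI]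
      rw [Finset.sum_mul]
  have hself : I s * φ s ≥ 4 := by
    have e1 : φ s = 1 := by simp [hφ]
    rw [e1, mul_one]
    exact total_inflow_self hn s
  have hterm : ∀ w, f G τ w + (if w.2 = s.2 then f G τ w else 0) +
      (if w.1 = s.1 then f G τ w else 0) + (if w = s then (1 : ℝ) else 0) ≤ I w * φ w := by
    intro w
    by_cases hws : w = s
    · subst hws
      have := f_le_one G τ w
      simp only [if_true]
      linarith
    · rw [if_neg hws, add_zero]
      have e1 : φ w = f G τ w := by simp [hφ, hws]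
      rw [e1]
      by_cases hf : f G τ w = 0
      · rw [hf]; simp
      · obtain ⟨h2, hd⟩ := hnear w hf
        have h3 := total_inflow hn m hm s w h2 hd hws
        have h4 := mul_le_mul_of_nonneg_right h3 (f_nonneg G τ w)
        refine le_trans (le_of_eq ?_) h4
        split_ifs <;> ring
  have hterm4 : ∀ w, f G τ w + (if w = s then (3 : ℝ) else 0) ≤ I w * φ w := by
    intro w
    by_cases hws : w = s
    · subst hws
      have := f_le_one G τ w
      simp only [if_true]
      linarith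
    · have h := hterm w
      rw [if_neg hws, add_zero] at h ⊢
      have h0 := f_nonneg G τ w
      have h1 : (0 : ℝ) ≤ (if w.2 = s.2 then f G τ w else 0) := by split_ifs <;> simp [h0]
      have h2 : (0 : ℝ) ≤ (if w.1 = s.1 then f G τ w else 0) := by split_ifs <;> simp [h0]
      linarith
  have hA := Finset.sum_le_sum fun w (_ : w ∈ (univ : Finset (ZMod n × ZMod n))) => hterm w
  have hB := Finset.sum_le_sum fun w (_ : w ∈ (univ : Finset (ZMod n × ZMod n))) => hterm4 w
  rw [Finset.sum_add_distrib, Finset.sum_add_distrib, Finset.sum_add_distrib,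
    ← Finset.sum_filter, ← Finset.sum_filter, Finset.sum_ite_eq'] at hA
  rw [Finset.sum_add_distrib, Finset.sum_ite_eq'] at hB
  simp only [Finset.mem_univ, if_true] at hA hB
  rw [hsum]
  have h4 : ∑ v, f G τ v + 4 ≤ 1 + ∑ w, I w * φ w := by linarith
  refine ⟨h4, ?_⟩
  -- row and column sums
  have hrow := row_sum G Prod.snd hc hne m
    (fun s w b h2 hd hb hw => snd_b hn m hm s w b h2 hd hb hw)
    (fun s w b h2 hd hb hw => snd_t hn m hm s w b h2 hd hb hw)
    (fun s w h2 hd hw hws => snd_0 hn m hm s w h2 hd hw hws)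
    (fun s => snd_s hn s) (fun c b h => tow_ne hn c b h) r (by omega) s' τ hτ s.2
  have hcol := row_sum G Prod.fst hc hne m
    (fun s w b h2 hd hb hw => fst_b hn m hm s w b h2 hd hb hw)
    (fun s w b h2 hd hb hw => fst_t hn m hm s w b h2 hd hb hw)
    (fun s w h2 hd hw hws => fst_0 hn m hm s w h2 hd hw hws)
    (fun s => fst_s hn s) (fun c b h => tow_ne hn c b h) r (by omega) s' τ hτ s.1
  have hp := pot del_facts n hn r s' τ hτ s.1 s.2
  have hz : del (s.1 - s'.1) + del (s.2 - s'.2) ≤ 1 := by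
    rw [hDel.2.2.1 s.1 s'.1, hDel.2.2.1 s.2 s'.2]
    exact hDel.2.2.2.2.1 s s' hs'
  have hq1 := q_anti r ((del (s.1 - s'.1) + del (s.2 - s'.2) : ℕ) : ℤ) 1 (by exact_mod_cast hz)
  have hq2 := (abs_le.1 (q_lip r 0)).1
  have hq3 := q_facts.2 r
  rw [zero_add] at hq2
  have hq1' : q r 1 - 1 ≤ q r ((del (s.1 - s'.1) + del (s.2 - s'.2) : ℕ) : ℤ) -
      ((del (s.1 - s'.1) + del (s.2 - s'.2) : ℕ) : ℝ) := by exact_mod_cast hq1
  have hU : 3 / 8 * Real.sqrt r - 2 ≤ U (τ.map Prod.fst) s.1 + U (τ.map Prod.snd) s.2 := by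
    linarith
  linarith

theorem capture_lower (r : ℕ) : r ≤ m → 1 ≤ r → ∀ (s : ZMod n × ZMod n)
    (τ : List (ZMod n × ZMod n)), τ ∈ Traj (tor n) r s →
    1 / 5 * (r : ℝ) * Real.sqrt r ≤ ∑ v, f (tor n) τ v := by
  induction r with
  | zero => intro _ h; omega
  | succ r ih =>
    intro hrm _ s τ hτ
    rw [Traj, Finset.mem_image] at hτ
    obtain ⟨τ', hτ', rfl⟩ := hτ
    rw [Finset.mem_biUnion] at hτ'
    obtain ⟨s', hs', hτ'⟩ := hτ'
    obtain ⟨h1, h2⟩ := growth hn m hm r hrm s s' hs' τ' hτ'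
    by_cases hr : r = 0
    · subst hr
      have h3 : 0 ≤ ∑ v, f (tor n) τ' v := Finset.sum_nonneg fun v _ => f_nonneg _ _ _
      norm_num
      linarith
    · have hr1 : 1 ≤ r := Nat.one_le_iff_ne_zero.2 hr
      have h3 := ih (by omega) hr1 s' τ' hτ'
      refine le_trans ?_ h2
      have hrR : (1 : ℝ) ≤ r := by exact_mod_cast hr1
      have hs0 : 0 ≤ Real.sqrt r := Real.sqrt_nonneg _
      have hsq : Real.sqrt r ^ 2 = r := Real.sq_sqrt (by linarith)
      have hkey : ((r : ℝ) + 1) * Real.sqrt ((r : ℝ) + 1) ≤ (r + 5 / 2) * Real.sqrt r := by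
        apply le_of_sq_le_sq _ (by positivity)
        rw [mul_pow, mul_pow, hsq, Real.sq_sqrt (by linarith)]
        nlinarith
      push_cast
      linarith

end

/-- **Main theorem**: with at least `128 n^{3/2}` zombies the survivor is eaten on the toroidal
`n × n` grid with probability at least `1/2`, during the first `m ≤ n` rounds. -/
theorem surv_half {n : ℕ} [NeZero n] (hn : 3 ≤ n) (k : ℕ)
    (hk : 128 * (n : ℝ) * Real.sqrt n ≤ k) : ∃ m : ℕ, m ≤ n ∧
    ∀ σ : List (Fin k → ZMod n × ZMod n) → ZMod n × ZMod n, Legal (tor n) σ →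
      survProb (tor n) σ m ≤ 1 / 2 := by
  obtain ⟨m, hm1, hm, hnum⟩ := num n hn
  refine ⟨m, by by_cases h : 2 ≤ m; · have := hm h; omega
                · omega, ?_⟩
  have hcardV : (Fintype.card (ZMod n × ZMod n) : ℝ) = (n : ℝ) ^ 2 := by
    rw [Fintype.card_prod, ZMod.card]; push_cast; ring
  have hn0 : (0 : ℝ) < n := by positivity
  intro σ hσ
  refine le_trans (survProb_le (tor n) σ hσ m) ?_
  set B : ℝ := 1 / 2 / ((n : ℝ) ^ 2 * (5 : ℝ) ^ m) with hB
  have hterm : ∀ s, ∀ τ ∈ Traj (tor n) m s,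
      ((∑ v, g (tor n) τ v) / (Fintype.card (ZMod n × ZMod n) : ℝ)) ^ k ≤ B := by
    intro s τ hτ
    have hA := capture_lower hn m hm m le_rfl hm1 s τ hτ
    have hfg : ∑ v, f (tor n) τ v = (n : ℝ) ^ 2 - ∑ v, g (tor n) τ v := by
      unfold f
      rw [Finset.sum_sub_distrib, Finset.sum_const, Finset.card_univ, nsmul_eq_mul, mul_one, hcardV]
    have hg0 : 0 ≤ ∑ v, g (tor n) τ v := Finset.sum_nonneg fun v _ => g_nonneg _ _ _
    have hA2 : ∑ v, f (tor n) τ v ≤ (n : ℝ) ^ 2 := by linarith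
    have h := hnum _ hA hA2 k hk
    have e1 : (∑ v, g (tor n) τ v) / (Fintype.card (ZMod n × ZMod n) : ℝ) =
        1 - (∑ v, f (tor n) τ v) / (n : ℝ) ^ 2 := by
      rw [hcardV, hfg]
      field_simp
      ring
    rw [e1, hB, le_div_iff₀ (by positivity)]
    linarith
  have hsum : ∑ s, ∑ τ ∈ Traj (tor n) m s,
      ((∑ v, g (tor n) τ v) / (Fintype.card (ZMod n × ZMod n) : ℝ)) ^ k ≤
      ∑ s : ZMod n × ZMod n, (5 : ℝ) ^ m * B := by
    apply Finset.sum_le_sum
    intro s _
    refine le_trans (Finset.sum_le_sum fun τ hτ => hterm s τ hτ) ?_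
    rw [Finset.sum_const, nsmul_eq_mul]
    have h5 : ((Traj (tor n) m s).card : ℝ) ≤ (5 : ℝ) ^ m := by
      exact_mod_cast card_Traj (tor n) 5 (geo n hn).2.2.1 m s
    have hB0 : 0 ≤ B := by positivity
    gcongr
  refine hsum.trans (le_of_eq ?_)
  rw [Finset.sum_const, Finset.card_univ, nsmul_eq_mul, hcardV, hB]
  field_simp

theorem sk_le {n : ℕ} [NeZero n] (hn : 3 ≤ n) (k : ℕ)
    (hk : 128 * (n : ℝ) * Real.sqrt n ≤ k) : sk (tor n) k ≤ 1 / 2 := by
  obtain ⟨m, -, h⟩ := surv_half hn k hk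
  unfold sk
  apply Real.iSup_le _ (by norm_num)
  rintro ⟨σ, hσ⟩
  have hbdd : BddBelow (Set.range fun m => survProb (tor n) σ m) :=
    ⟨0, by
      rintro _ ⟨j, rfl⟩
      exact div_nonneg (Finset.sum_nonneg fun Z _ => surv_nonneg _ _ _ _ _) (by positivity)⟩
  exact le_trans (ciInf_le hbdd m) (h σ hσ)

theorem zombieNumber_le {n : ℕ} [NeZero n] (hn : 3 ≤ n) :
    (zombieNumber (tor n) : ℝ) ≤ 129 * (n : ℝ) * Real.sqrt n := by
  have hn1 : (1 : ℝ) ≤ n := by exact_mod_cast (by omega : 1 ≤ n)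
  have hs1 : 1 ≤ Real.sqrt n := by
    rw [show (1 : ℝ) = Real.sqrt 1 by simp]
    exact Real.sqrt_le_sqrt hn1
  set k : ℕ := ⌈128 * (n : ℝ) * Real.sqrt n⌉₊ with hk
  have h1 : zombieNumber (tor n) ≤ k := Nat.sInf_le (sk_le hn k (Nat.le_ceil _))
  have h2 : (k : ℝ) < 128 * (n : ℝ) * Real.sqrt n + 1 := Nat.ceil_lt_add_one (by positivity)
  have h3 : (zombieNumber (tor n) : ℝ) ≤ k := by exact_mod_cast h1
  nlinarith

end Pool.Agent.H106R3.Zomb
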