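import Pool.Agent.H106R3.Zomb.Gen

set_option autoImplicit false
set_option maxHeartbeats 4000000

open Finset

namespace Pool.Agent.H106R3.Zomb

theorem q_lip (r : ℕ) : ∀ z : ℤ, |q r (z + 1) - q r z| ≤ 1 := by
  induction r with
  | zero =>
    intro z
    simp only [q]
    push_cast
    refine (abs_abs_sub_abs_le_abs_sub _ _).trans ?_
    simp
  | succ r ih =>
    intro z
    simp only [q]
    have h1 := abs_le.1 (ih (z + 1))
    have h2 := abs_le.1 (ih z)
    have h3 := abs_le.1 (ih (z - 1))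
    have e1 : z - 1 + 1 = z := by ring
    have e2 : z + 1 - 1 = z := by ring
    rw [e1] at h3
    rw [e2]
    rw [abs_le]
    constructor <;> linarith [h1.1, h1.2, h2.1, h2.2, h3.1, h3.2]

theorem q_anti (r : ℕ) (z w : ℤ) (h : z ≤ w) : q r w - w ≤ q r z - z := by
  obtain ⟨k, rfl⟩ := Int.le.dest h
  induction k with
  | zero => simp
  | succ k ih =>
    have h1 := (abs_le.1 (q_lip r (z + k))).2
    have e1 : z + ((k + 1 : ℕ) : ℤ) = z + k + 1 := by push_cast; ring
    rw [e1]
    have h2 := ih (by omega)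
    push_cast at h2 ⊢
    linarith

theorem pot : TaskPot := by
  intro hD n _ hn
  obtain ⟨h0, hadd, hsym, htow, hnb, -⟩ := hD n hn
  have tri : ∀ x y z : ZMod n, del (x - z) ≤ del (x - y) + del (z - y) := by
    intro x y z
    have : x - z = (x - y) + (y - z) := by ring
    rw [this]
    refine (hadd _ _).trans ?_
    rw [hsym y z]
  intro r
  induction r with
  | zero =>
    intro s τ hτ a b
    simp only [Traj, Finset.mem_singleton] at hτ
    subst hτ
    simp only [q, U, List.map_nil]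
    have : (0 : ℝ) ≤ ((del (a - s.1) + del (b - s.2) : ℕ) : ℝ) := Nat.cast_nonneg _
    push_cast at this ⊢
    rw [abs_of_nonneg this]
    linarith
  | succ r ih =>
    intro s τ hτ a b
    simp only [Traj, Finset.mem_image, Finset.mem_biUnion] at hτ
    obtain ⟨τ', ⟨s', hs', hτ'⟩, rfl⟩ := hτ
    have hd := hnb s s' hs'
    have key : ∀ a' b' : ZMod n,
        q r ((del (a' - s.1) + del (b' - s.2) : ℕ) + 1 : ℤ) - ((del (a' - s.1) + del (b' - s.2) : ℕ) + 1 : ℤ) ≤
          U (τ'.map Prod.fst) a' + U (τ'.map Prod.snd) b' := by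
      intro a' b'
      refine le_trans ?_ (ih s' τ' hτ' a' b')
      have h1 := tri a' s.1 s'.1
      have h2 := tri b' s.2 s'.2
      have := q_anti r ((del (a' - s'.1) + del (b' - s'.2) : ℕ) : ℤ)
        ((del (a' - s.1) + del (b' - s.2) : ℕ) + 1 : ℤ) (by omega)
      exact_mod_cast this
    have k00 := key a b
    have k01 := key a (tow s.2 b)
    have k10 := key (tow s.1 a) b
    have k11 := key (tow s.1 a) (tow s.2 b)
    simp only [List.map_cons, U]
    have htowself : ∀ c : ZMod n, tow c c = c := by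
      intro c
      simp [tow]
    have hlip := q_lip r
    by_cases ha : a = s.1 <;> by_cases hb : b = s.2
    · -- both aligned
      subst ha; subst hb
      have hz : del (s.1 - s.1) = 0 := by rw [sub_self]; exact (h0 0).2 rfl
      have hz2 : del (s.2 - s.2) = 0 := by rw [sub_self]; exact (h0 0).2 rfl
      simp only [htowself, hz, hz2, if_true] at k00 ⊢
      simp only [q]
      have l1 := abs_le.1 (hlip 0)
      have l2 := abs_le.1 (hlip (-1))
      norm_num at k00 l1 l2 ⊢
      linarith [l1.1, l1.2, l2.1, l2.2]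
    · subst ha
      have hz : del (s.1 - s.1) = 0 := by rw [sub_self]; exact (h0 0).2 rfl
      have ht := htow s.2 b hb
      obtain ⟨Y, hY⟩ : ∃ Y, Y = del (b - s.2) := ⟨_, rfl⟩
      obtain ⟨Y', hY'⟩ : ∃ Y', Y' = del (tow s.2 b - s.2) := ⟨_, rfl⟩
      rw [← hY, ← hY'] at ht
      subst ht
      simp only [htowself, hz, if_true, if_neg hb, ← hY, ← hY'] at k00 k01 ⊢
      simp only [q]
      have l1 := abs_le.1 (hlip (Y' + 1))
      have l2 := abs_le.1 (hlip Y')
      push_cast at k00 k01 l1 l2 ⊢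
      simp only [zero_add, add_sub_cancel_right] at k00 k01 l1 l2 ⊢
      have e3 : (Y' : ℤ) + 1 + 1 = Y' + 1 + 1 := rfl
      linarith [l1.1, l1.2, l2.1, l2.2]
    · subst hb
      have hz : del (s.2 - s.2) = 0 := by rw [sub_self]; exact (h0 0).2 rfl
      have ht := htow s.1 a ha
      obtain ⟨Y, hY⟩ : ∃ Y, Y = del (a - s.1) := ⟨_, rfl⟩
      obtain ⟨Y', hY'⟩ : ∃ Y', Y' = del (tow s.1 a - s.1) := ⟨_, rfl⟩
      rw [← hY, ← hY'] at ht
      subst ht
      simp only [htowself, hz, if_true, if_neg ha, ← hY, ← hY'] at k00 k10 ⊢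
      simp only [q]
      have l1 := abs_le.1 (hlip (Y' + 1))
      have l2 := abs_le.1 (hlip Y')
      push_cast at k00 k10 l1 l2 ⊢
      simp only [add_zero, add_sub_cancel_right] at k00 k10 l1 l2 ⊢
      linarith [l1.1, l1.2, l2.1, l2.2]
    · have htx := htow s.1 a ha
      have hty := htow s.2 b hb
      obtain ⟨X, hX⟩ : ∃ X, X = del (a - s.1) := ⟨_, rfl⟩
      obtain ⟨X', hX'⟩ : ∃ X', X' = del (tow s.1 a - s.1) := ⟨_, rfl⟩
      obtain ⟨Y, hY⟩ : ∃ Y, Y = del (b - s.2) := ⟨_, rfl⟩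
      obtain ⟨Y', hY'⟩ : ∃ Y', Y' = del (tow s.2 b - s.2) := ⟨_, rfl⟩
      rw [← hX, ← hX'] at htx
      rw [← hY, ← hY'] at hty
      subst htx; subst hty
      simp only [if_neg ha, if_neg hb, ← hX, ← hX', ← hY, ← hY'] at k00 k01 k10 k11 ⊢
      simp only [q]
      push_cast at k00 k01 k10 k11 ⊢
      have e1 : (X' : ℤ) + 1 + Y' + 1 = X' + 1 + (Y' + 1) := by ring
      have e2 : (X' : ℤ) + (Y' + 1) + 1 = X' + 1 + (Y' + 1) := by ring
      have e3 : (X' : ℤ) + Y' + 1 = X' + 1 + (Y' + 1) - 1 := by ring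
      rw [e1] at k01
      rw [e2] at k10
      rw [e3] at k11
      linarith

end Pool.Agent.H106R3.Zomb
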