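import Pool.Agent.H106R3.Zomb.Pot

set_option autoImplicit false
set_option maxHeartbeats 4000000

open Finset

namespace Pool.Agent.H106R3.Zomb

/-- capture probability of one zombie along a fixed trajectory -/
noncomputable def f {V : Type} [Fintype V] [DecidableEq V] (G : SimpleGraph V) (τ : List V)
    (v : V) : ℝ := 1 - g G τ v

section
variable {V : Type} [Fintype V] [DecidableEq V] (G : SimpleGraph V)

theorem f_nonneg (τ : List V) (v : V) : 0 ≤ f G τ v := by
  unfold f; linarith [g_le_one G τ v]

theorem f_le_one (τ : List V) (v : V) : f G τ v ≤ 1 := by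
  unfold f; linarith [g_nonneg G τ v]

theorem f_nil (v : V) : f G [] v = 0 := by simp [f, g]

theorem closer_self (s : V) : closer G s s = ∅ := by
  ext w
  simp [closer, SimpleGraph.dist_self]

theorem step_self (s w : V) : step G s s w = 0 := by
  simp [step, closer_self]

/-- the recursion for the capture probability -/
theorem f_cons (hne : ∀ s v : V, v ≠ s → (closer G s v).Nonempty) (s : V) (τ : List V) (v : V) :
    f G (s :: τ) v = (if v = s then 1 else 0) +
      ∑ w, step G s v w * (if w = s then 1 else f G τ w) := by
  by_cases h : v = s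
  · subst h
    simp [f, g, step_self]
  · simp only [f, g, if_neg h, zero_add]
    have h1 := sum_step_eq G s v (hne s v h)
    have h2 : ∑ w, step G s v w * (if w = s then 1 else 1 - g G τ w) =
        ∑ w, step G s v w - ∑ w, step G s v w * (if w = s then 0 else g G τ w) := by
      rw [← Finset.sum_sub_distrib]
      apply Finset.sum_congr rfl
      intro w _
      split_ifs <;> ring
    rw [h2, h1]

/-- the support of the capture probability -/
theorem f_support (hc : G.Connected) (hne : ∀ s v : V, v ≠ s → (closer G s v).Nonempty) (r : ℕ) :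
    ∀ (s : V) (τ : List V), τ ∈ Traj G (r + 1) s → ∀ v, f G τ v ≠ 0 → G.dist v s ≤ 2 * r + 1 := by
  induction r with
  | zero =>
    intro s τ hτ v hv
    simp only [Traj, Finset.mem_image, Finset.mem_biUnion, Finset.mem_singleton] at hτ
    obtain ⟨τ', ⟨s', hs', rfl⟩, rfl⟩ := hτ
    rw [f_cons G hne] at hv
    by_cases h : v = s
    · subst h; simp
    · rw [if_neg h, zero_add] at hv
      obtain ⟨w, _, hw⟩ := Finset.exists_ne_zero_of_sum_ne_zero hv
      have hw1 : w = s := by
        by_contra hws
        rw [if_neg hws, f_nil, mul_zero] at hw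
        exact hw rfl
      have hw2 : w ∈ closer G s v := by
        by_contra hws
        apply hw
        simp [step, hws]
      simp only [closer, Finset.mem_filter, Finset.mem_univ, true_and] at hw2
      rw [← hw2.2, hw1, SimpleGraph.dist_self]
  | succ r ih =>
    intro s τ hτ v hv
    rw [Traj, Finset.mem_image] at hτ
    obtain ⟨τ', hτ', rfl⟩ := hτ
    rw [Finset.mem_biUnion] at hτ'
    obtain ⟨s', hs', hτ'⟩ := hτ'
    have hds : G.dist s' s ≤ 1 := by
      simp only [nb, Finset.mem_filter, Finset.mem_univ, true_and] at hs'
      rcases hs' with h | h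
      · subst h; simp
      · rw [SimpleGraph.dist_comm]
        exact le_of_eq (SimpleGraph.dist_eq_one_iff_adj.2 h)
    rw [f_cons G hne] at hv
    by_cases h : v = s
    · subst h; simp
    · rw [if_neg h, zero_add] at hv
      obtain ⟨w, _, hw⟩ := Finset.exists_ne_zero_of_sum_ne_zero hv
      have hw2 : w ∈ closer G s v := by
        by_contra hws
        apply hw
        simp [step, hws]
      simp only [closer, Finset.mem_filter, Finset.mem_univ, true_and] at hw2
      rw [← hw2.2]
      by_cases hws : w = s
      · rw [hws, SimpleGraph.dist_self]; omega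
      · rw [if_neg hws] at hw
        have h3 := ih s' τ' hτ' w (right_ne_zero_of_mul hw)
        have h4 := hc.dist_triangle (u := w) (v := s') (w := s)
        omega

/-- support seen from a neighbour -/
theorem f_near (hc : G.Connected) (hne : ∀ s v : V, v ≠ s → (closer G s v).Nonempty) (r : ℕ)
    (s s' : V) (hs' : s' ∈ nb G s) (τ : List V) (hτ : τ ∈ Traj G r s') (w : V)
    (hw : f G τ w ≠ 0) : 1 ≤ r ∧ G.dist w s ≤ 2 * r := by
  cases r with
  | zero =>
    simp only [Traj, Finset.mem_singleton] at hτ
    subst hτ
    exact absurd (f_nil G w) hw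
  | succ r =>
    have h3 := f_support G hc hne r s' τ hτ w hw
    have hds : G.dist s' s ≤ 1 := by
      simp only [nb, Finset.mem_filter, Finset.mem_univ, true_and] at hs'
      rcases hs' with h | h
      · subst h; simp
      · rw [SimpleGraph.dist_comm]
        exact le_of_eq (SimpleGraph.dist_eq_one_iff_adj.2 h)
    have h4 := hc.dist_triangle (u := w) (v := s') (w := s)
    constructor <;> omega

end

/-- row sums of the capture probability dominate twice the occupation time -/
theorem row_sum {n : ℕ} {V : Type} [Fintype V] [DecidableEq V] (G : SimpleGraph V) (π : V → ZMod n)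
    (hc : G.Connected) (hne : ∀ s v : V, v ≠ s → (closer G s v).Nonempty) (m : ℕ)
    (h_b : ∀ s w b, 2 ≤ m → G.dist w s ≤ 2 * (m - 1) → b ≠ π s → π w = b →
      (1 / 2 : ℝ) ≤ ∑ v with π v = b, step G s v w)
    (h_t : ∀ s w b, 2 ≤ m → G.dist w s ≤ 2 * (m - 1) → b ≠ π s → π w = tow (π s) b →
      (1 / 2 : ℝ) ≤ ∑ v with π v = b, step G s v w)
    (h_0 : ∀ s w, 2 ≤ m → G.dist w s ≤ 2 * (m - 1) → π w = π s → w ≠ s →
      (1 : ℝ) ≤ ∑ v with π v = π s, step G s v w)
    (h_s : ∀ s, (2 : ℝ) ≤ ∑ v with π v = π s, step G s v s)
    (htow : ∀ c b : ZMod n, b ≠ c → tow c b ≠ b) (r : ℕ) :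
    r ≤ m → ∀ (s : V) (τ : List V), τ ∈ Traj G r s → ∀ b,
      2 * U (τ.map π) b ≤ ∑ v with π v = b, f G τ v := by
  induction r with
  | zero =>
    intro _ s τ hτ b
    simp only [Traj, Finset.mem_singleton] at hτ
    subst hτ
    simp only [List.map_nil, U, mul_zero]
    exact Finset.sum_nonneg fun v _ => f_nonneg G _ v
  | succ r ih =>
    intro hrm s τ hτ b
    rw [Traj, Finset.mem_image] at hτ
    obtain ⟨τ', hτ', rfl⟩ := hτ
    rw [Finset.mem_biUnion] at hτ'
    obtain ⟨s', hs', hτ'⟩ := hτ'
    have hih := ih (by omega) s' τ' hτ'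
    have hnear : ∀ w, f G τ' w ≠ 0 → 2 ≤ m ∧ G.dist w s ≤ 2 * (m - 1) := by
      intro w hw
      have := f_near G hc hne r s s' hs' τ' hτ' w hw
      omega
    set φ : V → ℝ := fun w => if w = s then 1 else f G τ' w with hφ
    have hφ0 : ∀ w, 0 ≤ φ w := by
      intro w
      simp only [hφ]
      split_ifs
      · exact zero_le_one
      · exact f_nonneg G _ _
    have hφf : ∀ w, f G τ' w ≤ φ w := by
      intro w
      simp only [hφ]
      split_ifs
      · exact f_le_one G _ _
      · exact le_rfl
    set I : V → ℝ := fun w => ∑ v with π v = b, step G s v w with hI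
    have hI0 : ∀ w, 0 ≤ I w := fun w => Finset.sum_nonneg fun v _ => step_nonneg _ _ _ _
    have hsum : ∑ v with π v = b, f G (s :: τ') v =
        (if π s = b then 1 else 0) + ∑ w, I w * φ w := by
      have e1 : ∑ v with π v = b, f G (s :: τ') v =
          ∑ v with π v = b, ((if v = s then (1 : ℝ) else 0) + ∑ w, step G s v w * φ w) := by
        apply Finset.sum_congr rfl
        intro v _
        rw [f_cons G hne]
      rw [e1, Finset.sum_add_distrib]
      congr 1
      · rw [Finset.sum_ite_eq']
        simp
      · rw [Finset.sum_comm]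
        apply Finset.sum_congr rfl
        intro w _
        simp only [hI]
        rw [Finset.sum_mul]
    rw [hsum]
    simp only [List.map_cons, U]
    by_cases hb : b = π s
    · subst hb
      have htself : tow (π s) (π s) = π s := by simp [tow]
      rw [htself, if_pos rfl]
      have h1 : ∑ w, I w * φ w ≥ ∑ w with π w = π s, I w * φ w :=
        Finset.sum_le_sum_of_subset_of_nonneg (Finset.filter_subset _ _)
          fun w _ _ => mul_nonneg (hI0 w) (hφ0 w)
      have h2 : ∑ w with π w = π s, (f G τ' w + if w = s then (1 : ℝ) else 0) ≤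
          ∑ w with π w = π s, I w * φ w := by
        apply Finset.sum_le_sum
        intro w hw
        rw [Finset.mem_filter] at hw
        by_cases hws : w = s
        · subst hws
          rw [if_pos rfl]
          have e1 : φ w = 1 := by simp [hφ]
          rw [e1, mul_one]
          have := h_s w
          have := f_le_one G τ' w
          simp only [hI]
          linarith
        · rw [if_neg hws, add_zero]
          by_cases hf : f G τ' w = 0
          · rw [hf]; exact mul_nonneg (hI0 w) (hφ0 w)
          · obtain ⟨hm, hd⟩ := hnear w hf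
            have h3 := h_0 s w hm hd hw.2 hws
            calc f G τ' w = 1 * f G τ' w := (one_mul _).symm
              _ ≤ I w * φ w := mul_le_mul h3 (hφf w) (f_nonneg G _ _) (hI0 w)
      rw [Finset.sum_add_distrib, Finset.sum_ite_eq'] at h2
      simp only [Finset.mem_filter, Finset.mem_univ, true_and, if_true] at h2
      have h4 := hih (π s)
      linarith
    · have hb' : ¬ π s = b := fun h => hb h.symm
      rw [if_neg hb, if_neg hb']
      set b' := tow (π s) b with hb'def
      have hbb : b' ≠ b := htow (π s) b hb
      have hdisj : Disjoint (univ.filter fun w : V => π w = b) (univ.filter fun w : V => π w = b') := by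
        rw [Finset.disjoint_filter]
        intro w _ h1 h2
        exact hbb (h2.symm.trans h1)
      have h1 : ∑ w ∈ (univ.filter fun w : V => π w = b) ∪ (univ.filter fun w : V => π w = b'),
          I w * φ w ≤ ∑ w, I w * φ w :=
        Finset.sum_le_sum_of_subset_of_nonneg (Finset.subset_univ _)
          fun w _ _ => mul_nonneg (hI0 w) (hφ0 w)
      rw [Finset.sum_union hdisj] at h1
      have hterm : ∀ w, (2 ≤ m → G.dist w s ≤ 2 * (m - 1) → (1 / 2 : ℝ) ≤ I w) →
          1 / 2 * f G τ' w ≤ I w * φ w := by
        intro w hw
        by_cases hf : f G τ' w = 0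
        · rw [hf, mul_zero]; exact mul_nonneg (hI0 w) (hφ0 w)
        · obtain ⟨hm, hd⟩ := hnear w hf
          exact mul_le_mul (hw hm hd) (hφf w) (f_nonneg G _ _) (hI0 w)
      have h2 : 1 / 2 * ∑ w with π w = b, f G τ' w ≤ ∑ w with π w = b, I w * φ w := by
        rw [Finset.mul_sum]
        apply Finset.sum_le_sum
        intro w hw
        rw [Finset.mem_filter] at hw
        exact hterm w fun hm hd => h_b s w b hm hd hb hw.2
      have h3 : 1 / 2 * ∑ w with π w = b', f G τ' w ≤ ∑ w with π w = b', I w * φ w := by
        rw [Finset.mul_sum]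
        apply Finset.sum_le_sum
        intro w hw
        rw [Finset.mem_filter] at hw
        exact hterm w fun hm hd => h_t s w b hm hd hb hw.2
      have h4 := hih b
      have h5 := hih b'
      linarith

end Pool.Agent.H106R3.Zomb
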